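import Mathlib

/-!
# Flag certificates, computable part

A multigraph with at most 16 vertices is a number `v` of vertices and a list of codes of edges, the
code of `{a, b}` is `16 a + b`. Everything here is evaluated by the kernel.
-/

set_option autoImplicit false

namespace Pool.Agent.Lib.MP_009d13_co.FL

/-! ### Permutations -/

/-- The image of `a` under the permutation coded by `p`. -/
def dj (p a : ℕ) : ℕ := p / 16 ^ a % 16

/-- The image of `a`, labels from `v` on are fixed. -/
def rj (v p a : ℕ) : ℕ := if a < v then dj p a else a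

/-- The set of images of the labels below `v`, as a bit mask. -/
def msk (p : ℕ) : ℕ → ℕ
  | 0 => 0
  | v + 1 => 2 ^ dj p v ||| msk p v

/-- `p` permutes the labels below `v`. -/
def okp (v p : ℕ) : Bool := Nat.beq (msk p v) (2 ^ v - 1)

/-- Code of the edge `{a, b}`. -/
def nm (a b : ℕ) : ℕ := if a ≤ b then 16 * a + b else 16 * b + a

/-- The image of the edge with code `c`. -/
def rl (v p c : ℕ) : ℕ := nm (rj v p (c / 16)) (rj v p (c % 16))

/-! ### Keys -/

/-- Insertion into a sorted list. -/
def ins (c : ℕ) : List ℕ → List ℕ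
  | [] => [c]
  | d :: t => if c ≤ d then c :: d :: t else d :: ins c t

/-- Insertion sort. -/
def srt : List ℕ → List ℕ
  | [] => []
  | c :: t => ins c (srt t)

/-- A list of codes as a number. -/
def enc : List ℕ → ℕ
  | [] => 0
  | c :: t => c + 256 * enc t

/-- The list of `n` codes coded by `k`. -/
def dec : ℕ → ℕ → List ℕ
  | 0, _ => []
  | n + 1, k => k % 256 :: dec n (k / 256)

/-- Key of the multigraph `(v, H)` relabelled by `p`. -/
def key0 (v p : ℕ) (H : List ℕ) : ℕ := v + 64 * enc (srt (H.map (rl v p)))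

/-- Code of the identity. -/
def idp : ℕ := 0xfedcba9876543210

/-- Key of the multigraph `(v, H)` relabelled by `p` if `p` is a permutation, by the identity
otherwise. -/
def key (v p : ℕ) (H : List ℕ) : ℕ :=
  if okp v p = true then key0 v p H else key0 v idp H

/-! ### Flags -/

/-- A flag: a link between two vertices, from a vertex to the outside, or outside. -/
inductive Fl where
  | inn (a b : ℕ) : Fl
  | out (a : ℕ) : Fl
  | oo : Fl

/-- The numbers `s, s + 1, ..., s + k - 1`. -/
def rg : ℕ → ℕ → List ℕ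
  | _, 0 => []
  | s, k + 1 => s :: rg (s + 1) k

/-- The pairs `j < k` of labels from `s` to `s + k - 1`. -/
def prs : ℕ → ℕ → List (ℕ × ℕ)
  | _, 0 => []
  | s, k + 1 => (rg (s + 1) k).map (fun j => (s, j)) ++ prs (s + 1) k

/-- One flag relative to the first `v0` of `v` vertices: coefficient, number of new vertices, code
of the new edge. -/
def ex1 (v0 v : ℕ) : Fl → List (ℕ × ℕ × ℕ)
  | .inn a b => [(1, 0, 16 * a + b)]
  | .out a => ((rg v0 (v - v0)).filter (fun j => !(Nat.beq j a))).map (fun j => (1, 0, 16 * a + j))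
      ++ [(1, 1, 16 * a + v)]
  | .oo => (prs v0 (v - v0)).map (fun j => (2, 0, 16 * j.1 + j.2))
      ++ (rg v0 (v - v0)).map (fun j => (2, 1, 16 * j + v)) ++ [(1, 2, 16 * v + (v + 1))]

/-- A product of flags: coefficient, number of vertices, codes of the edges. -/
def exL : ℕ → List ℕ → ℕ → List (ℕ × Fl) → List (ℕ × ℕ × List ℕ)
  | v, H, c, [] => [(c, v, H)]
  | v, H, c, f :: fs => (ex1 f.1 v f.2).flatMap fun t => exL (v + t.2.1) (t.2.2 :: H) (c * t.1) fs

/-- All flags on `v` vertices. -/
def fl (v : ℕ) : List Fl :=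
  (prs 0 v).map (fun p => Fl.inn p.1 p.2) ++ (rg 0 v).map Fl.out ++ [Fl.oo]

/-! ### Lists of terms -/

/-- Cons with forced evaluation of the key. -/
def cns (k : ℕ) (c : ℤ) (r : List (ℕ × ℤ)) : List (ℕ × ℤ) :=
  match k with
  | 0 => (0, c) :: r
  | k + 1 => (k + 1, c) :: r

/-- Terms with a common factor `q`; the permutations are the digits of `P` in base `2 ^ 64`. -/
def tms (q : ℤ) : List (ℕ × ℕ × List ℕ) → ℕ → List (ℕ × ℤ)
  | [], _ => []
  | t :: ts, P => cns (key t.2.1 (P % 2 ^ 64) t.2.2) (q * t.1) (tms q ts (P / 2 ^ 64))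

/-- Merge of two lists of terms. -/
def mrg : ℕ → List (ℕ × ℤ) → List (ℕ × ℤ) → List (ℕ × ℤ)
  | 0, xs, ys => xs ++ ys
  | _ + 1, [], ys => ys
  | _ + 1, x :: xs, [] => x :: xs
  | n + 1, x :: xs, y :: ys =>
    if x.1 < y.1 then x :: mrg n xs (y :: ys)
    else if y.1 < x.1 then y :: mrg n (x :: xs) ys
    else (x.1, x.2 + y.2) :: mrg n xs ys

/-- The terms at even and at odd positions. -/
def spl {α : Type} : List α → List α × List α
  | [] => ([], [])
  | x :: xs => ((x :: (spl xs).2), (spl xs).1)

/-- Merge sort, collecting equal keys. -/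
def msr : ℕ → List (ℕ × ℤ) → List (ℕ × ℤ)
  | 0, xs => xs
  | _ + 1, [] => []
  | _ + 1, [x] => [x]
  | n + 1, x :: y :: xs => mrg 100000 (msr n (spl (x :: y :: xs)).1) (msr n (spl (x :: y :: xs)).2)

end Pool.Agent.Lib.MP_009d13_co.FL
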