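import Pool.Agent.Lib.MP_009d13_co.FL.Cert7L
import Pool.Agent.Lib.MP_009d13_co.FL.Cert7M1
import Pool.Agent.Lib.MP_009d13_co.FL.Cert7M2
import Pool.Agent.Lib.MP_009d13_co.FL.Cert7M3
import Pool.Agent.Lib.MP_009d13_co.FL.Cert7a
import Pool.Agent.Lib.MP_009d13_co.FL.Cert7b

/-!
# The certificate for `l = 7`
-/

set_option autoImplicit false

namespace Pool.Agent.Lib.MP_009d13_co.FL

noncomputable section

/-- The graphs with 8 edges. -/
def lv7_8 : List (ℕ × ℤ) :=
  mrgF 100000 lx7_8_1 (mrgF 100000 lx7_8_2 (mrgF 100000 lx7_8_3 (mrgF 100000 lx7_8_4 (lx7_8_5))))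

theorem lev7_8 : Lev 8 lv7_8 :=
  lev_par lev7_7 (par_app lxp7_8_1 (par_app lxp7_8_2 (par_app lxp7_8_3 (par_app lxp7_8_4 (lxp7_8_5)))))

/-- The terms of all types. -/
def nta7 : List (List (ℕ × ℤ)) :=
  [nt7_1, nt7_2, nt7_3, nt7_4, nt7_5, nt7_6, nt7_7, nt7_8, nt7_9, nt7_10, nt7_11, nt7_12, nt7_13, nt7_14, nt7_15, nt7_16, nt7_17, nt7_18, nt7_19, nt7_20, nt7_21, nt7_22, nt7_23, nt7_24, nt7_25, nt7_26, nt7_27, nt7_28, nt7_29, nt7_30, nt7_31, nt7_32, nt7_33, nt7_34, nt7_35, nt7_36, nt7_37, nt7_38, nt7_39, nt7_40, nt7_41, nt7_42, nt7_43, nt7_44, nt7_45, nt7_46, nt7_47, nt7_48]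

theorem nts7 : Neg 8 (mraF nta7) := by
  refine neg_mraF fun x hx => ?_
  unfold nta7 at hx
  simp only [List.mem_cons, List.not_mem_nil, or_false] at hx
  rcases hx with rfl | rfl | rfl | rfl | rfl | rfl | rfl | rfl | rfl | rfl | rfl | rfl | rfl | rfl | rfl | rfl | rfl | rfl | rfl | rfl | rfl | rfl | rfl | rfl | rfl | rfl | rfl | rfl | rfl | rfl | rfl | rfl | rfl | rfl | rfl | rfl | rfl | rfl | rfl | rfl | rfl | rfl | rfl | rfl | rfl | rfl | rfl | rfl
  · exact nts7_1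
  · exact nts7_2
  · exact nts7_3
  · exact nts7_4
  · exact nts7_5
  · exact nts7_6
  · exact nts7_7
  · exact nts7_8
  · exact nts7_9
  · exact nts7_10
  · exact nts7_11
  · exact nts7_12
  · exact nts7_13
  · exact nts7_14
  · exact nts7_15
  · exact nts7_16
  · exact nts7_17
  · exact nts7_18
  · exact nts7_19
  · exact nts7_20
  · exact nts7_21
  · exact nts7_22
  · exact nts7_23
  · exact nts7_24
  · exact nts7_25
  · exact nts7_26
  · exact nts7_27
  · exact nts7_28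
  · exact nts7_29
  · exact nts7_30
  · exact nts7_31
  · exact nts7_32
  · exact nts7_33
  · exact nts7_34
  · exact nts7_35
  · exact nts7_36
  · exact nts7_37
  · exact nts7_38
  · exact nts7_39
  · exact nts7_40
  · exact nts7_41
  · exact nts7_42
  · exact nts7_43
  · exact nts7_44
  · exact nts7_45
  · exact nts7_46
  · exact nts7_47
  · exact nts7_48

theorem finc7 : finF 7 3840 6324810240 10 lv7_8 fn7 (mraF nta7) = true := by decide +kernel

theorem cert7 : SP.Cert 7 := finF_sound lev7_8 fns7 nts7 finc7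

end

end Pool.Agent.Lib.MP_009d13_co.FL
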