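import Mathlib

/-!
# Positive semidefinite integer matrices by fraction-free elimination

A symmetric matrix is the list of the rows of its upper triangle, each row starts with the diagonal
entry.
-/

set_option autoImplicit false

namespace Pool.Agent.Lib.MP_009d13_co.FL

/-- Scalar product. -/
noncomputable def dotR : List ℤ → List ℝ → ℝ
  | q :: qs, x :: xs => q * x + dotR qs xs
  | _, _ => 0

/-- The contribution of one row. -/
noncomputable def rwR : List ℤ → ℝ → List ℝ → ℝ
  | [], _, _ => 0
  | q :: qs, x, xs => q * (x * x) + 2 * (x * dotR qs xs)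

/-- The quadratic form. -/
noncomputable def qf : List (List ℤ) → List ℝ → ℝ
  | r :: rs, x :: xs => rwR r x xs + qf rs xs
  | _, _ => 0

/-- One row of the Schur complement. -/
def stp (p q t : ℤ) : List ℤ → List ℤ → List ℤ
  | x :: xs, y :: ys => (p * x - t * y) / q :: stp p q t xs ys
  | _, _ => []

/-- The divisions are exact. -/
def exa (p q t : ℤ) : List ℤ → List ℤ → Bool
  | x :: xs, y :: ys => (q * ((p * x - t * y) / q) == p * x - t * y) && exa p q t xs ys
  | _, _ => true

/-- The Schur complement. -/
def sch (p q : ℤ) : List ℤ → List (List ℤ) → List (List ℤ)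
  | t :: ts, r :: rs => stp p q t r (t :: ts) :: sch p q ts rs
  | _, _ => []

/-- All divisions are exact. -/
def exs (p q : ℤ) : List ℤ → List (List ℤ) → Bool
  | t :: ts, r :: rs => exa p q t r (t :: ts) && exs p q ts rs
  | _, _ => true

/-- The upper triangle of an `n` times `n` matrix. -/
def shp : ℕ → List (List ℤ) → Bool
  | 0, [] => true
  | n + 1, r :: rs => (r.length == n + 1) && shp n rs
  | _, _ => false

/-- All entries are zero. -/
def zer : List ℤ → Bool
  | [] => true
  | x :: xs => (x == 0) && zer xs

/-- Elimination with previous pivot `q`. -/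
def psd : ℕ → ℤ → List (List ℤ) → Bool
  | 0, _, _ => true
  | _ + 1, _, [] => true
  | _ + 1, _, [] :: _ => true
  | n + 1, q, (p :: ts) :: rs =>
    if p == 0 then zer ts && psd n q rs
    else decide (0 < p) && exs p q ts rs && psd n p (sch p q ts rs)

theorem zer_dot : ∀ (ts : List ℤ) (xs : List ℝ), zer ts = true → dotR ts xs = 0
  | [], _, _ => rfl
  | _ :: _, [], _ => rfl
  | t :: ts, x :: xs, h => by
    rw [zer, Bool.and_eq_true] at h
    rw [dotR, zer_dot ts xs h.2, eq_of_beq h.1]
    simp

theorem stp_length (p q t : ℤ) : ∀ xs ys : List ℤ, xs.length = ys.length →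
    (stp p q t xs ys).length = xs.length
  | [], _, _ => by simp [stp]
  | _ :: _, [], h => by simp at h
  | x :: xs, y :: ys, h => by
    have h' : xs.length = ys.length := by simpa using h
    rw [stp, List.length_cons, stp_length p q t xs ys h', List.length_cons]

theorem stp_dot (p q t : ℤ) : ∀ (xs ys : List ℤ) (zs : List ℝ), xs.length = ys.length →
    exa p q t xs ys = true →
    (q : ℝ) * dotR (stp p q t xs ys) zs = p * dotR xs zs - t * dotR ys zs
  | [], [], _, _, _ => by simp [stp, dotR]
  | [], _ :: _, _, h, _ => by simp at h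
  | _ :: _, [], _, h, _ => by simp at h
  | x :: xs, y :: ys, [], _, _ => by simp [stp, dotR]
  | x :: xs, y :: ys, z :: zs, h, he => by
    have h' : xs.length = ys.length := by simpa using h
    rw [exa, Bool.and_eq_true] at he
    have h1 : q * ((p * x - t * y) / q) = p * x - t * y := eq_of_beq he.1
    have h2 : (q : ℝ) * (((p * x - t * y) / q : ℤ) : ℝ) = p * x - t * y := by
      exact_mod_cast h1
    have ih := stp_dot p q t xs ys zs h' he.2
    rw [stp, dotR, dotR, dotR]
    linear_combination z * h2 + ih

theorem sch_shp (p q : ℤ) : ∀ (n : ℕ) (ts : List ℤ) (rs : List (List ℤ)), ts.length = n →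
    shp n rs = true → shp n (sch p q ts rs) = true
  | 0, [], [], _, _ => by simp [sch, shp]
  | 0, _ :: _, _, h, _ => by simp at h
  | 0, [], _ :: _, _, h => by simp [shp] at h
  | n + 1, [], _, h, _ => by simp at h
  | n + 1, _ :: _, [], _, h => by simp [shp] at h
  | n + 1, t :: ts, r :: rs, ht, h => by
    rw [shp, Bool.and_eq_true] at h
    have hr : r.length = n + 1 := eq_of_beq h.1
    have ht' : ts.length = n := by simpa using ht
    rw [sch, shp, Bool.and_eq_true]
    refine ⟨?_, sch_shp p q n ts rs ht' h.2⟩
    rw [stp_length p q t r (t :: ts) (by rw [hr, List.length_cons, ht']), hr]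
    simp

theorem sch_qf (p q : ℤ) : ∀ (n : ℕ) (ts : List ℤ) (rs : List (List ℤ)) (xs : List ℝ),
    ts.length = n → shp n rs = true → xs.length = n → exs p q ts rs = true →
    (q : ℝ) * qf (sch p q ts rs) xs = p * qf rs xs - dotR ts xs * dotR ts xs
  | 0, [], [], _, _, _, _, _ => by simp [sch, qf, dotR]
  | 0, _ :: _, _, _, h, _, _, _ => by simp at h
  | 0, [], _ :: _, _, _, h, _, _ => by simp [shp] at h
  | n + 1, [], _, _, h, _, _, _ => by simp at h
  | n + 1, _ :: _, [], _, _, h, _, _ => by simp [shp] at h
  | n + 1, _ :: _, _ :: _, [], _, _, h, _ => by simp at h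
  | n + 1, t :: ts, r :: rs, x :: xs, ht, h, hx, he => by
    rw [shp, Bool.and_eq_true] at h
    have hr : r.length = n + 1 := eq_of_beq h.1
    have ht' : ts.length = n := by simpa using ht
    have hx' : xs.length = n := by simpa using hx
    rw [exs, Bool.and_eq_true] at he
    have ih := sch_qf p q n ts rs xs ht' h.2 hx' he.2
    cases r with
    | nil => simp at hr
    | cons a r' =>
      have hr' : r'.length = ts.length := by
        have : r'.length = n := by simpa using hr
        rw [this, ht']
      have he1 := he.1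
      rw [exa, Bool.and_eq_true] at he1
      have h1 : q * ((p * a - t * t) / q) = p * a - t * t := eq_of_beq he1.1
      have h2 : (q : ℝ) * (((p * a - t * t) / q : ℤ) : ℝ) = p * a - t * t := by
        exact_mod_cast h1
      have h3 := stp_dot p q t r' ts xs hr' he1.2
      rw [sch, qf, qf, stp, rwR, rwR, dotR]
      linear_combination (x * x) * h2 + (2 * x) * h3 + ih

/-- Soundness of the elimination. -/
theorem psd_sound : ∀ (n : ℕ) (q : ℤ) (M : List (List ℤ)) (xs : List ℝ), 0 < q →
    shp n M = true → xs.length = n → psd n q M = true → 0 ≤ qf M xs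
  | 0, _, [], _, _, _, _, _ => by simp [qf]
  | 0, _, _ :: _, _, _, h, _, _ => by simp [shp] at h
  | n + 1, _, [], _, _, h, _, _ => by simp [shp] at h
  | n + 1, _, [] :: _, _, _, h, _, _ => by simp [shp] at h
  | n + 1, _, (_ :: _) :: _, [], _, _, h, _ => by simp at h
  | n + 1, q, (p :: ts) :: rs, x :: xs, hq, h, hx, hp => by
    rw [shp, Bool.and_eq_true] at h
    have hr : (p :: ts).length = n + 1 := eq_of_beq h.1
    have ht : ts.length = n := by simpa using hr
    have hx' : xs.length = n := by simpa using hx
    rw [qf, rwR]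
    rw [psd] at hp
    split_ifs at hp with h0
    · rw [Bool.and_eq_true] at hp
      have h1 : p = 0 := eq_of_beq h0
      have h2 := psd_sound n q rs xs hq h.2 hx' hp.2
      rw [zer_dot ts xs hp.1, h1]
      simpa using h2
    · rw [Bool.and_eq_true, Bool.and_eq_true] at hp
      have h1 : 0 < p := of_decide_eq_true hp.1.1
      have h2 := psd_sound n p (sch p q ts rs) xs h1 (sch_shp p q n ts rs ht h.2) hx' hp.2
      have h3 := sch_qf p q n ts rs xs ht h.2 hx' hp.1.2
      have h4 : (0 : ℝ) < p := by exact_mod_cast h1
      have h5 : (0 : ℝ) < q := by exact_mod_cast hq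
      have h6 : 0 ≤ (q : ℝ) * qf (sch p q ts rs) xs := mul_nonneg h5.le h2
      have h7 : (p : ℝ) * (p * (x * x) + 2 * (x * dotR ts xs) + qf rs xs)
          = (p * x + dotR ts xs) ^ 2 + q * qf (sch p q ts rs) xs := by
        rw [h3]; ring
      have h8 : 0 ≤ (p : ℝ) * (p * (x * x) + 2 * (x * dotR ts xs) + qf rs xs) := by
        rw [h7]; positivity
      exact nonneg_of_mul_nonneg_right h8 h4

end Pool.Agent.Lib.MP_009d13_co.FL
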