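import Pool.Agent.Lib.MP_009d13_co.FL.Exp
import Pool.Agent.Lib.MP_009d13_co.FL.Psd

/-!
# Products of several flags, quadratic forms in flags
-/

set_option autoImplicit false

namespace Pool.Agent.Lib.MP_009d13_co.FL

open Finset Classical
open Pool.Agent.Lib.MP_009d13_co.OD (NL mem_NL Wt un ms dg)

/-! ### Computable part -/

/-- All labels of a list of codes are below `v`. -/
def okh (v : ℕ) : List ℕ → Bool
  | [] => true
  | c :: t => decide (c / 16 < v) && decide (c % 16 < v) && okh v t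

/-- The terms of a list of items `(q, ts)`, the permutations are taken from `P`. -/
def blk : List (ℤ × List (ℕ × ℕ × List ℕ)) → ℕ → List (ℕ × ℤ)
  | [], _ => []
  | i :: is, P => tms i.1 i.2 P ++ blk is (P / 2 ^ (64 * i.2.length))

/-- One row of a quadratic form in the flags. -/
def qrw (v : ℕ) (T : List ℕ) (x : Fl) : List Fl → List ℤ → List (ℤ × List (ℕ × ℕ × List ℕ))
  | y :: ys, q :: qs =>
    if q == 0 then qrw v T x ys qs
    else (2 * q, exL v T 1 [(v, x), (v, y)]) :: qrw v T x ys qs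
  | _, _ => []

/-- A quadratic form in the flags. -/
def qit (v : ℕ) (T : List ℕ) : List Fl → List (List ℤ) → List (ℤ × List (ℕ × ℕ × List ℕ))
  | _ :: xs, [] :: rs => qit v T xs rs
  | x :: xs, (q :: qs) :: rs =>
    (q, exL v T 1 [(v, x), (v, x)]) :: (qrw v T x xs qs ++ qit v T xs rs)
  | _, _ => []

noncomputable section

set_option linter.unusedSectionVars false

variable {V : Type} [Fintype V]

/-- The constant weight. -/
def o1 (_ : Finset V) : ℝ := 1

/-- Product of the values of flags. -/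
def pv (μ : V → V → ℝ) (L : List V) : List (ℕ × Fl) → ℝ
  | [] => 1
  | f :: fs => val μ f.1 L f.2 * pv μ L fs

/-- All flags of a list live on `v` vertices. -/
def okF (v : ℕ) (fs : List (ℕ × Fl)) : Prop := ∀ f ∈ fs, f.1 ≤ v ∧ okf v f.2 = true

theorem okf_mono {v w : ℕ} (h : v ≤ w) {y : Fl} (hy : okf v y = true) : okf w y = true := by
  cases y with
  | inn a b =>
    rw [okf, Bool.and_eq_true, decide_eq_true_iff, decide_eq_true_iff] at *
    omega
  | out a =>
    rw [okf, decide_eq_true_iff] at *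
    omega
  | oo => rfl

theorem okh_mono {v w : ℕ} (h : v ≤ w) : ∀ {H : List ℕ}, okh v H = true → okh w H = true
  | [], _ => rfl
  | c :: t, hH => by
    rw [okh, Bool.and_eq_true, Bool.and_eq_true, decide_eq_true_iff, decide_eq_true_iff] at *
    refine ⟨⟨?_, ?_⟩, okh_mono h hH.2⟩ <;> omega

theorem okh_lt {v : ℕ} (hv : v ≤ 16) : ∀ {H : List ℕ}, okh v H = true → ∀ c ∈ H, c < 256
  | [], _, c, hc => by simp at hc
  | d :: t, hH, c, hc => by
    rw [okh, Bool.and_eq_true, Bool.and_eq_true, decide_eq_true_iff, decide_eq_true_iff] at hH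
    rcases List.mem_cons.mp hc with rfl | hc
    · omega
    · exact okh_lt hv hH.2 c hc

theorem wt_take {μ : V → V → ℝ} (L : List V) {v a b : ℕ} (ha : a < v) (hb : b < v) :
    wt μ (L.take v) a b = wt μ L a b := by
  unfold wt
  rw [List.getElem?_take_of_lt ha, List.getElem?_take_of_lt hb]

theorem mo_take {μ : V → V → ℝ} (L : List V) {v : ℕ} : ∀ {H : List ℕ}, okh v H = true →
    mo μ (L.take v) H = mo μ L H
  | [], _ => rfl
  | c :: t, h => by
    rw [okh, Bool.and_eq_true, Bool.and_eq_true, decide_eq_true_iff, decide_eq_true_iff] at h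
    rw [mo, mo, wt_take L h.1.1 h.1.2, mo_take L h.2]

theorem val_take {μ : V → V → ℝ} (L : List V) {v v0 : ℕ} (hv : v0 ≤ v) {y : Fl}
    (hy : okf v y = true) : val μ v0 (L.take v) y = val μ v0 L y := by
  cases y with
  | inn a b =>
    rw [okf, Bool.and_eq_true, decide_eq_true_iff, decide_eq_true_iff] at hy
    exact wt_take L hy.1 hy.2
  | out a =>
    rw [okf, decide_eq_true_iff] at hy
    rw [val, val, uo, uo, List.getElem?_take_of_lt hy, List.take_take, min_eq_left hv]
  | oo =>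
    rw [val, val, List.take_take, min_eq_left hv]

theorem pv_take {μ : V → V → ℝ} (L : List V) {v : ℕ} : ∀ {fs : List (ℕ × Fl)}, okF v fs →
    pv μ (L.take v) fs = pv μ L fs
  | [], _ => rfl
  | f :: fs, h => by
    have h1 := h f (by simp)
    rw [pv, pv, val_take L h1.1 h1.2, pv_take L fun g hg => h g (by simp [hg])]

theorem ex1_ok {v0 v : ℕ} (hv : v + 2 ≤ 16) (hv0 : v0 ≤ v) {y : Fl} (hy : okf v y = true) :
    ∀ t ∈ ex1 v0 v y, t.2.1 ≤ 2 ∧ t.2.2 / 16 < v + t.2.1 ∧ t.2.2 % 16 < v + t.2.1 := by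
  intro t ht
  cases y with
  | inn a b =>
    rw [okf, Bool.and_eq_true, decide_eq_true_iff, decide_eq_true_iff] at hy
    rw [ex1, List.mem_singleton] at ht
    subst ht
    refine ⟨?_, ?_, ?_⟩ <;> simp <;> omega
  | out a =>
    rw [okf, decide_eq_true_iff] at hy
    rw [ex1, List.mem_append, List.mem_map, List.mem_singleton] at ht
    rcases ht with ⟨j, hj, rfl⟩ | rfl
    · rw [List.mem_filter, mem_rg] at hj
      refine ⟨?_, ?_, ?_⟩ <;> simp <;> omega
    · refine ⟨?_, ?_, ?_⟩ <;> simp <;> omega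
  | oo =>
    rw [ex1, List.mem_append, List.mem_append, List.mem_map, List.mem_map,
      List.mem_singleton] at ht
    rcases ht with (⟨p, hp, rfl⟩ | ⟨j, hj, rfl⟩) | rfl
    · have := mem_prs hp
      refine ⟨?_, ?_, ?_⟩ <;> simp <;> omega
    · rw [mem_rg] at hj
      refine ⟨?_, ?_, ?_⟩ <;> simp <;> omega
    · refine ⟨?_, ?_, ?_⟩ <;> simp <;> omega

theorem et_flatMap (μ : V → V → ℝ) (G : Finset V → ℝ) {α : Type}
    (g : α → List (ℕ × ℕ × List ℕ)) : ∀ xs : List α,
    et μ G (xs.flatMap g) = lsum (fun x => et μ G (g x)) xs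
  | [] => rfl
  | x :: xs => by rw [List.flatMap_cons, et_append, et_flatMap μ G g xs, lsum]

theorem okh_cons {v e : ℕ} {H : List ℕ} (h1 : e / 16 < v) (h2 : e % 16 < v)
    (h : okh v H = true) : okh v (e :: H) = true := by
  rw [okh, Bool.and_eq_true, Bool.and_eq_true, decide_eq_true_iff, decide_eq_true_iff]
  exact ⟨⟨h1, h2⟩, h⟩

/-- The expansion of a product of flags. -/
theorem exL_et {μ : V → V → ℝ} (hμ : Wt μ) : ∀ (fs : List (ℕ × Fl)) (v : ℕ) (H : List ℕ) (c : ℕ),
    okh v H = true → okF v fs → v + 2 * fs.length ≤ 16 →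
    et μ o1 (exL v H c fs) = c * ∑ L ∈ NL (∅ : Finset V) v, mo μ L H * pv μ L fs
  | [], v, H, c, _, _, _ => by
    rw [exL, et, et, add_zero]
    unfold E o1
    congr 1
    exact Finset.sum_congr rfl fun L _ => by rw [pv]; ring
  | f :: fs, v, H, c, hH, hF, hv => by
    rw [List.length_cons] at hv
    have hf := hF f (by simp)
    have hF' : okF v fs := fun g hg => hF g (by simp [hg])
    have h1 : ∑ L ∈ NL (∅ : Finset V) v, mo μ L H * pv μ L (f :: fs)
        = ∑ L ∈ NL (∅ : Finset V) v, (mo μ L H * pv μ L fs) * val μ f.1 L f.2 :=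
      Finset.sum_congr rfl fun L _ => by rw [pv]; ring
    rw [h1, exp1 hμ hf.1 (by omega) (fun L => mo μ L H * pv μ L fs) hf.2, exL, et_flatMap,
      ← lsum_mul]
    refine lsum_congr fun t ht => ?_
    have h2 := ex1_ok (by omega) hf.1 hf.2 t ht
    have h3 : v ≤ v + t.2.1 := by omega
    rw [exL_et hμ fs (v + t.2.1) (t.2.2 :: H) (c * t.1)
      (okh_cons h2.2.1 h2.2.2 (okh_mono h3 hH))
      (fun g hg => ⟨(hF' g hg).1.trans h3, okf_mono h3 (hF' g hg).2⟩) (by omega)]
    push_cast
    rw [mul_assoc]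
    congr 2
    refine Finset.sum_congr rfl fun L _ => ?_
    rw [mo_take L hH, pv_take L hF', mo]
    unfold we
    ring

theorem exL_gd : ∀ (fs : List (ℕ × Fl)) (v : ℕ) (H : List ℕ) (c : ℕ),
    okh v H = true → okF v fs → v + 2 * fs.length ≤ 16 →
    gd (H.length + fs.length) (exL v H c fs)
  | [], v, H, c, hH, _, hv => by
    intro t ht
    rw [exL, List.mem_singleton] at ht
    subst ht
    exact ⟨by simpa using hv, by simp, okh_lt (by simpa using hv) hH⟩
  | f :: fs, v, H, c, hH, hF, hv => by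
    rw [List.length_cons] at hv
    have hf := hF f (by simp)
    have hF' : okF v fs := fun g hg => hF g (by simp [hg])
    intro s hs
    rw [exL, List.mem_flatMap] at hs
    obtain ⟨t, ht, hs⟩ := hs
    have h2 := ex1_ok (by omega) hf.1 hf.2 t ht
    have h3 : v ≤ v + t.2.1 := by omega
    have h4 := exL_gd fs (v + t.2.1) (t.2.2 :: H) (c * t.1)
      (okh_cons h2.2.1 h2.2.2 (okh_mono h3 hH))
      (fun g hg => ⟨(hF' g hg).1.trans h3, okf_mono h3 (hF' g hg).2⟩) (by omega) s hs
    rw [List.length_cons] at h4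
    rw [List.length_cons]
    refine ⟨h4.1, ?_, h4.2.2⟩
    rw [h4.2.1]
    omega

/-! ### Items -/

/-- Value of a list of items. -/
def iv (μ : V → V → ℝ) (G : Finset V → ℝ) : List (ℤ × List (ℕ × ℕ × List ℕ)) → ℝ
  | [] => 0
  | i :: is => i.1 * et μ G i.2 + iv μ G is

theorem iv_append (μ : V → V → ℝ) (G : Finset V → ℝ) :
    ∀ xs ys : List (ℤ × List (ℕ × ℕ × List ℕ)), iv μ G (xs ++ ys) = iv μ G xs + iv μ G ys
  | [], ys => by simp [iv]
  | x :: xs, ys => by rw [List.cons_append, iv, iv, iv_append μ G xs ys]; ring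

/-- All terms of all items are fine. -/
def gdi (n : ℕ) (is : List (ℤ × List (ℕ × ℕ × List ℕ))) : Prop := ∀ i ∈ is, gd n i.2

theorem ev_blk {μ : V → V → ℝ} (hμ : Wt μ) (G : Finset V → ℝ) (n : ℕ) :
    ∀ (is : List (ℤ × List (ℕ × ℕ × List ℕ))) (P : ℕ), gdi n is →
    ev μ G n (blk is P) = iv μ G is
  | [], _, _ => rfl
  | i :: is, P, h => by
    rw [blk, ev_append, ev_tms hμ G n i.1 i.2 P (h i (by simp)),
      ev_blk hμ G n is _ fun j hj => h j (by simp [hj]), iv]

/-! ### Quadratic forms -/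

theorem pair_et {μ : V → V → ℝ} (hμ : Wt μ) {v : ℕ} {T : List ℕ} (hT : okh v T = true)
    (hv : v + 4 ≤ 16) {x y : Fl} (hx : okf v x = true) (hy : okf v y = true) :
    et μ o1 (exL v T 1 [(v, x), (v, y)])
      = ∑ L ∈ NL (∅ : Finset V) v, mo μ L T * (val μ v L x * val μ v L y) := by
  rw [exL_et hμ [(v, x), (v, y)] v T 1 hT ?_ (by simpa using hv)]
  · rw [Nat.cast_one, one_mul]
    refine Finset.sum_congr rfl fun L _ => ?_
    rw [pv, pv, pv]
    ring
  · intro f hf
    rw [List.mem_cons, List.mem_singleton] at hf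
    rcases hf with rfl | rfl
    · exact ⟨le_refl _, hx⟩
    · exact ⟨le_refl _, hy⟩

theorem pair_gd {v : ℕ} {T : List ℕ} (hT : okh v T = true)
    (hv : v + 4 ≤ 16) {x y : Fl} (hx : okf v x = true) (hy : okf v y = true) :
    gd (T.length + 2) (exL v T 1 [(v, x), (v, y)]) := by
  refine exL_gd [(v, x), (v, y)] v T 1 hT ?_ (by simpa using hv)
  intro f hf
  rw [List.mem_cons, List.mem_singleton] at hf
  rcases hf with rfl | rfl
  · exact ⟨le_refl _, hx⟩
  · exact ⟨le_refl _, hy⟩

theorem qrw_iv {μ : V → V → ℝ} (hμ : Wt μ) {v : ℕ} {T : List ℕ} (hT : okh v T = true)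
    (hv : v + 4 ≤ 16) {x : Fl} (hx : okf v x = true) : ∀ (ys : List Fl) (qs : List ℤ),
    (∀ y ∈ ys, okf v y = true) → iv μ o1 (qrw v T x ys qs)
      = ∑ L ∈ NL (∅ : Finset V) v,
          mo μ L T * (2 * (val μ v L x * dotR qs (ys.map (val μ v L))))
  | [], _, _ => by simp [qrw, iv, dotR]
  | _ :: _, [], _ => by simp [qrw, iv, dotR]
  | y :: ys, q :: qs, h => by
    have ih := qrw_iv hμ hT hv hx ys qs fun z hz => h z (by simp [hz])
    have h1 : iv μ o1 (qrw v T x (y :: ys) (q :: qs))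
        = 2 * q * et μ o1 (exL v T 1 [(v, x), (v, y)]) + iv μ o1 (qrw v T x ys qs) := by
      rw [qrw]
      split_ifs with h0
      · rw [eq_of_beq h0]; simp
      · rw [iv]; push_cast; ring
    rw [h1, ih, pair_et hμ hT hv hx (h y (by simp)), Finset.mul_sum, ← Finset.sum_add_distrib]
    refine Finset.sum_congr rfl fun L _ => ?_
    rw [List.map_cons, dotR]
    ring

theorem qit_iv {μ : V → V → ℝ} (hμ : Wt μ) {v : ℕ} {T : List ℕ} (hT : okh v T = true)
    (hv : v + 4 ≤ 16) : ∀ (xs : List Fl) (M : List (List ℤ)),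
    (∀ y ∈ xs, okf v y = true) → iv μ o1 (qit v T xs M)
      = ∑ L ∈ NL (∅ : Finset V) v, mo μ L T * qf M (xs.map (val μ v L))
  | [], _, _ => by simp [qit, iv, qf]
  | _ :: _, [], _ => by simp [qit, iv, qf]
  | x :: xs, [] :: rs, h => by
    rw [qit, qit_iv hμ hT hv xs rs fun z hz => h z (by simp [hz])]
    refine Finset.sum_congr rfl fun L _ => ?_
    rw [List.map_cons, qf, rwR, zero_add]
  | x :: xs, (q :: qs) :: rs, h => by
    have hx := h x (by simp)
    have hs : ∀ z ∈ xs, okf v z = true := fun z hz => h z (by simp [hz])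
    rw [qit, iv, iv_append, qrw_iv hμ hT hv hx xs qs hs, qit_iv hμ hT hv xs rs hs,
      pair_et hμ hT hv hx hx, Finset.mul_sum, ← Finset.sum_add_distrib,
      ← Finset.sum_add_distrib]
    refine Finset.sum_congr rfl fun L _ => ?_
    rw [List.map_cons, qf, rwR]
    ring

theorem qrw_gd {v : ℕ} {T : List ℕ} (hT : okh v T = true)
    (hv : v + 4 ≤ 16) {x : Fl} (hx : okf v x = true) : ∀ (ys : List Fl) (qs : List ℤ),
    (∀ y ∈ ys, okf v y = true) → gdi (T.length + 2) (qrw v T x ys qs)
  | [], _, _ => by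
    intro i hi
    simp [qrw] at hi
  | _ :: _, [], _ => by
    intro i hi
    simp [qrw] at hi
  | y :: ys, q :: qs, h => by
    have ih := qrw_gd hT hv hx ys qs fun z hz => h z (by simp [hz])
    rw [qrw]
    split_ifs with h0
    · exact ih
    · intro i hi
      rcases List.mem_cons.mp hi with rfl | hi
      · exact pair_gd hT hv hx (h y (by simp))
      · exact ih i hi

theorem qit_gd {v : ℕ} {T : List ℕ} (hT : okh v T = true)
    (hv : v + 4 ≤ 16) : ∀ (xs : List Fl) (M : List (List ℤ)),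
    (∀ y ∈ xs, okf v y = true) → gdi (T.length + 2) (qit v T xs M)
  | [], _, _ => by
    intro i hi
    simp [qit] at hi
  | _ :: _, [], _ => by
    intro i hi
    simp [qit] at hi
  | x :: xs, [] :: rs, h => by
    rw [qit]
    exact qit_gd hT hv xs rs fun z hz => h z (by simp [hz])
  | x :: xs, (q :: qs) :: rs, h => by
    have hx := h x (by simp)
    have hs : ∀ z ∈ xs, okf v z = true := fun z hz => h z (by simp [hz])
    rw [qit]
    intro i hi
    rcases List.mem_cons.mp hi with rfl | hi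
    · exact pair_gd hT hv hx hx
    · rcases List.mem_append.mp hi with hi | hi
      · exact qrw_gd hT hv hx xs qs hs i hi
      · exact qit_gd hT hv xs rs hs i hi

theorem okf_fl (v : ℕ) : ∀ y ∈ fl v, okf v y = true := by
  intro y hy
  rw [fl, List.mem_append, List.mem_append, List.mem_map, List.mem_map, List.mem_singleton] at hy
  rcases hy with (⟨p, hp, rfl⟩ | ⟨j, hj, rfl⟩) | rfl
  · have := mem_prs hp
    rw [okf, Bool.and_eq_true, decide_eq_true_iff, decide_eq_true_iff]
    omega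
  · rw [mem_rg] at hj
    rw [okf, decide_eq_true_iff]
    omega
  · rfl

/-- The form of a type is nonnegative. -/
theorem qit_nonneg {μ : V → V → ℝ} (hμ : Wt μ) {v : ℕ} {T : List ℕ} {M : List (List ℤ)}
    (hT : okh v T = true) (hv : v + 4 ≤ 16) (hM : shp (fl v).length M = true)
    (hP : psd (fl v).length 1 M = true) : 0 ≤ iv μ o1 (qit v T (fl v) M) := by
  rw [qit_iv hμ hT hv (fl v) M (okf_fl v)]
  refine Finset.sum_nonneg fun L _ => mul_nonneg (mo_nonneg hμ L T) ?_
  exact psd_sound _ 1 M _ (by norm_num) hM (by rw [List.length_map]) hP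

end

end Pool.Agent.Lib.MP_009d13_co.FL
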