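import Pool.Agent.Lib.MP_009d13_co.OD.LS4
import Pool.Agent.Lib.MP_009d13_co.FL.Lst
import Pool.Agent.Lib.MP_009d13_co.SP.Defs

/-!
# The functional as a combination of products of flags
-/

set_option autoImplicit false

namespace Pool.Agent.Lib.MP_009d13_co.FL

open Finset Classical
open Pool.Agent.Lib.MP_009d13_co.OD
open Pool.Agent.Lib.MP_009d13_co.SP (e1)

/-- The path `s, s + 1, ..., s + k`. -/
def pth (s k : ℕ) : List ℕ := (rg s k).map (fun j => 16 * j + (j + 1))

/-- The pairs of paths. -/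
def cit (l : ℕ) (q : ℤ) : List ℕ → List (ℤ × List (ℕ × ℕ × List ℕ))
  | [] => []
  | i :: is => (q, exL (l + 1) (pth 0 i ++ pth (i + 1) (l - 1 - i)) 1 [(0, .out 0), (0, .out l)])
      :: cit l q is

/-- The functional, multiplied by `q`. -/
def fit (l : ℕ) (q : ℤ) : List (ℤ × List (ℕ × ℕ × List ℕ)) :=
  (q * (2 * (l + 1)), exL l (pth 0 (l - 1)) 1 [(0, .out 0), (0, .out (l - 1))])
    :: (q * 2, exL (l + 1) (pth 0 l) 1 [(0, .out l)]) :: cit l q (rg 0 l)

noncomputable section

set_option linter.unusedSectionVars false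

variable {V : Type} [Fintype V]

theorem okh_pth : ∀ (k s v : ℕ), s + k < v → v ≤ 16 → okh v (pth s k) = true
  | 0, _, _, _, _ => rfl
  | k + 1, s, v, h, hv => by
    have ih := okh_pth k (s + 1) v (by omega) hv
    have h1 : pth s (k + 1) = (16 * s + (s + 1)) :: pth (s + 1) k := rfl
    rw [h1]
    exact okh_cons (by omega) (by omega) ih

theorem okh_append {v : ℕ} : ∀ {H H' : List ℕ}, okh v H = true → okh v H' = true →
    okh v (H ++ H') = true
  | [], _, _, h => h
  | c :: t, H', h, h' => by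
    rw [okh, Bool.and_eq_true] at h
    rw [List.cons_append, okh, Bool.and_eq_true]
    exact ⟨h.1, okh_append h.2 h'⟩

theorem pth_length : ∀ s k : ℕ, (pth s k).length = k
  | _, 0 => rfl
  | s, k + 1 => by
    have h1 : pth s (k + 1) = (16 * s + (s + 1)) :: pth (s + 1) k := rfl
    rw [h1, List.length_cons, pth_length]

theorem mo_pth (μ : V → V → ℝ) (L : List V) : ∀ (k s : ℕ), s + k < L.length → s + k < 16 →
    mo μ L (pth s k) = pw μ ((L.drop s).take (k + 1))
  | 0, s, h, _ => by
    have h1 : s < L.length := by omega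
    rw [List.drop_eq_getElem_cons h1]
    rfl
  | k + 1, s, h, hs => by
    have h1 : s < L.length := by omega
    have h2 : s + 1 < L.length := by omega
    have ih := mo_pth μ L k (s + 1) (by omega) (by omega)
    have h3 : pth s (k + 1) = (16 * s + (s + 1)) :: pth (s + 1) k := rfl
    rw [h3, mo, ih, List.drop_eq_getElem_cons h1, List.drop_eq_getElem_cons h2,
      show (16 * s + (s + 1)) / 16 = s by omega, show (16 * s + (s + 1)) % 16 = s + 1 by omega]
    rw [List.take_succ_cons, List.take_succ_cons, List.take_succ_cons]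
    have h4 : ∀ T : List V, pw μ (L[s] :: L[s + 1] :: T) = μ L[s] L[s + 1] * pw μ (L[s + 1] :: T) :=
      fun T => rfl
    rw [h4, wt, List.getElem?_eq_getElem h1, List.getElem?_eq_getElem h2]

theorem val_out (μ : V → V → ℝ) {L : List V} {a : ℕ} (ha : a < L.length) :
    val μ 0 L (.out a) = dg μ L[a] := by
  rw [val, uo, List.getElem?_eq_getElem ha, dg_eq]
  rfl

theorem hd_get (g : V → ℝ) {L : List V} (h : 0 < L.length) : hd g L = g L[0] := by
  cases L with
  | nil => simp at h
  | cons a t => rfl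

theorem ls_get (g : V → ℝ) {L : List V} (h : 0 < L.length) :
    ls g L = g (L[L.length - 1]'(by omega)) := by
  unfold ls
  rw [hd_get g (by simpa using h)]
  congr 1
  rw [List.getElem_reverse]
  rfl

theorem okF_two {v a b : ℕ} (ha : a < v) (hb : b < v) : okF v [(0, .out a), (0, .out b)] := by
  intro f hf
  rw [List.mem_cons, List.mem_singleton] at hf
  rcases hf with rfl | rfl
  · exact ⟨Nat.zero_le _, by simpa [okf] using ha⟩
  · exact ⟨Nat.zero_le _, by simpa [okf] using hb⟩

theorem okF_one {v a : ℕ} (ha : a < v) : okF v [(0, .out a)] := by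
  intro f hf
  rw [List.mem_singleton] at hf
  subst hf
  exact ⟨Nat.zero_le _, by simpa [okf] using ha⟩

theorem fun_W {μ : V → V → ℝ} (hμ : Wt μ) {l : ℕ} (hl : 1 ≤ l) (hl' : l ≤ 11) :
    et μ o1 (exL l (pth 0 (l - 1)) 1 [(0, .out 0), (0, .out (l - 1))]) = Wo μ (dg μ) l := by
  rw [exL_et hμ _ l _ 1 (okh_pth _ _ _ (by omega) (by omega)) (okF_two (by omega) (by omega))
    (by simp; omega), Nat.cast_one, one_mul]
  unfold Wo
  refine Finset.sum_congr rfl fun L hL => ?_
  have h1 : L.length = l := (mem_NL.1 hL).1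
  rw [pv, pv, pv, val_out μ (by omega), val_out μ (by omega), mo_pth μ L _ _ (by omega) (by omega),
    hd_get _ (by omega), ls_get _ (by omega), List.drop_zero,
    List.take_of_length_le (by omega)]
  simp only [h1]
  ring

theorem fun_A {μ : V → V → ℝ} (hμ : Wt μ) {l : ℕ} (hl' : l ≤ 11) :
    et μ o1 (exL (l + 1) (pth 0 l) 1 [(0, .out l)]) = Ao μ (dg μ) l := by
  rw [exL_et hμ _ (l + 1) _ 1 (okh_pth _ _ _ (by omega) (by omega)) (okF_one (by omega))
    (by simp; omega), Nat.cast_one, one_mul]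
  unfold Ao
  refine Finset.sum_congr rfl fun L hL => ?_
  have h1 : L.length = l + 1 := (mem_NL.1 hL).1
  rw [pv, pv, val_out μ (by omega), mo_pth μ L _ _ (by omega) (by omega),
    ls_get _ (by omega), List.drop_zero, List.take_of_length_le (by omega)]
  simp only [h1, Nat.add_sub_cancel]
  ring

theorem fun_C {μ : V → V → ℝ} (hμ : Wt μ) {l i : ℕ} (hl' : l ≤ 11) (hi : i < l) :
    et μ o1 (exL (l + 1) (pth 0 i ++ pth (i + 1) (l - 1 - i)) 1 [(0, .out 0), (0, .out l)])
      = ∑ P ∈ NL (∅ : Finset V) (i + 1), ∑ Q ∈ NL P.toFinset (l + 1 - 1 - i),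
        hd (dg μ) P * pw μ P * ls (fun a => hd (e1 a) Q) P * pw μ Q * ls (dg μ) Q := by
  rw [exL_et hμ _ (l + 1) _ 1 (okh_append (okh_pth _ _ _ (by omega) (by omega))
    (okh_pth _ _ _ (by omega) (by omega))) (okF_two (by omega) (by omega))
    (by simp; omega), Nat.cast_one, one_mul]
  have h0 : l + 1 = (i + 1) + (l + 1 - 1 - i) := by omega
  conv_lhs => rw [h0]
  rw [sum_NL_append]
  refine Finset.sum_congr rfl fun P hP => ?_
  rw [Finset.empty_union]
  refine Finset.sum_congr rfl fun Q hQ => ?_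
  have hp : P.length = i + 1 := (mem_NL.1 hP).1
  obtain ⟨hq, -, hd'⟩ := mem_NL.1 hQ
  have hlen : (P ++ Q).length = l + 1 := by rw [List.length_append]; omega
  have e2 : ls (fun a => hd (e1 a) Q) P = 1 := by
    rw [ls_get _ (by omega), hd_get _ (by omega)]
    unfold e1
    rw [if_neg]
    intro h
    have h3 : Q[0]'(by omega) ∈ Q := List.getElem_mem _
    apply hd' _ h3
    rw [List.mem_toFinset, ← h]
    exact List.getElem_mem _
  have e3 : mo μ (P ++ Q) (pth 0 i) = pw μ P := by
    rw [mo_pth μ _ _ _ (by omega) (by omega), List.drop_zero, ← hp, List.take_left]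
  have e4 : mo μ (P ++ Q) (pth (i + 1) (l - 1 - i)) = pw μ Q := by
    rw [mo_pth μ _ _ _ (by omega) (by omega), ← hp, List.drop_left,
      List.take_of_length_le (by omega)]
  have e5 : dg μ ((P ++ Q)[0]'(by omega)) = hd (dg μ) P := by
    rw [hd_get _ (by omega)]
    congr 1
    rw [List.getElem_append_left (by omega)]
  have e6 : dg μ ((P ++ Q)[l]'(by omega)) = ls (dg μ) Q := by
    rw [ls_get _ (by omega)]
    congr 1
    rw [List.getElem_append_right (by omega)]
    congr 1
    omega
  rw [pv, pv, pv, val_out μ (by omega), val_out μ (by omega), mo_append, e2, e3, e4]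
  have e7 : dg μ ((P ++ Q)[0]'(by omega)) * (dg μ ((P ++ Q)[l]'(by omega)) * 1)
      = hd (dg μ) P * (ls (dg μ) Q * 1) := by rw [e5, e6]
  rw [e7]
  ring

theorem cit_iv {μ : V → V → ℝ} (hμ : Wt μ) {l : ℕ} (hl' : l ≤ 11) (q : ℤ) :
    ∀ is : List ℕ, (∀ i ∈ is, i < l) → iv μ o1 (cit l q is)
      = q * lsum (fun i => ∑ P ∈ NL (∅ : Finset V) (i + 1), ∑ Q ∈ NL P.toFinset (l + 1 - 1 - i),
        hd (dg μ) P * pw μ P * ls (fun a => hd (e1 a) Q) P * pw μ Q * ls (dg μ) Q) is
  | [], _ => by simp [cit, iv, lsum]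
  | i :: is, h => by
    rw [cit, iv, lsum, cit_iv hμ hl' q is fun j hj => h j (by simp [hj]),
      fun_C hμ hl' (h i (by simp))]
    ring

theorem lsum_range (f : ℕ → ℝ) : ∀ (k s : ℕ), lsum f (rg s k) = ∑ i ∈ range k, f (s + i)
  | 0, s => by simp [rg, lsum]
  | k + 1, s => by
    rw [rg, lsum, lsum_range f k (s + 1), Finset.sum_range_succ']
    have h1 : ∀ i, s + 1 + i = s + (i + 1) := fun i => by omega
    simp only [h1, add_zero]
    ring

/-- The functional with all hubs adjacent. -/
theorem fit_iv {μ : V → V → ℝ} (hμ : Wt μ) {l : ℕ} (hl : 1 ≤ l) (hl' : l ≤ 11) (q : ℤ) :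
    iv μ o1 (fit l q) = q * Fo μ e1 l := by
  rw [fit, iv, iv, cit_iv hμ hl' q _ (fun i hi => by rw [mem_rg] at hi; omega), fun_W hμ hl hl',
    fun_A hμ hl', lsum_range]
  unfold Fo Fd CC
  have h1 : l + 1 - 1 = l := by omega
  simp only [h1, zero_add]
  push_cast
  ring

theorem cit_gd {l : ℕ} (hl' : l ≤ 11) (q : ℤ) : ∀ is : List ℕ, (∀ i ∈ is, i < l) →
    gdi (l + 1) (cit l q is)
  | [], _ => by
    intro i hi
    simp [cit] at hi
  | i :: is, h => by
    intro j hj
    rw [cit, List.mem_cons] at hj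
    rcases hj with rfl | hj
    · have hi := h i (by simp)
      have := exL_gd [(0, .out 0), (0, .out l)] (l + 1) (pth 0 i ++ pth (i + 1) (l - 1 - i)) 1
        (okh_append (okh_pth _ _ _ (by omega) (by omega))
          (okh_pth _ _ _ (by omega) (by omega))) (okF_two (by omega) (by omega))
        (by simp; omega)
      rw [List.length_append, pth_length, pth_length] at this
      have h2 : i + (l - 1 - i) + [((0 : ℕ), Fl.out 0), (0, Fl.out l)].length = l + 1 := by
        simp; omega
      rw [h2] at this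
      exact this
    · exact cit_gd hl' q is (fun j hj => h j (by simp [hj])) j hj

theorem fit_gd {l : ℕ} (hl : 1 ≤ l) (hl' : l ≤ 11) (q : ℤ) : gdi (l + 1) (fit l q) := by
  intro j hj
  rw [fit, List.mem_cons, List.mem_cons] at hj
  rcases hj with rfl | rfl | hj
  · have := exL_gd [(0, .out 0), (0, .out (l - 1))] l (pth 0 (l - 1)) 1
      (okh_pth _ _ _ (by omega) (by omega)) (okF_two (by omega) (by omega)) (by simp; omega)
    rw [pth_length] at this
    have h2 : l - 1 + [((0 : ℕ), Fl.out 0), (0, Fl.out (l - 1))].length = l + 1 := by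
      simp; omega
    rw [h2] at this
    exact this
  · have := exL_gd [(0, .out l)] (l + 1) (pth 0 l) 1
      (okh_pth _ _ _ (by omega) (by omega)) (okF_one (by omega)) (by simp; omega)
    rw [pth_length] at this
    exact this
  · exact cit_gd hl' q _ (fun i hi => by rw [mem_rg] at hi; omega) j hj

end

end Pool.Agent.Lib.MP_009d13_co.FL
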