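import Pool.Agent.Lib.MP_009d13_co.FL.Stp
import Pool.Agent.Lib.MP_009d13_co.FL.Fun
import Pool.Agent.Lib.MP_009d13_co.SP.BND
import Pool.Agent.Lib.MP_009d13_co.SP.FOT

/-!
# The certificate checker and its soundness
-/

set_option autoImplicit false

namespace Pool.Agent.Lib.MP_009d13_co.FL

open Finset Classical
open Pool.Agent.Lib.MP_009d13_co.OD (NL mem_NL Wt un ms dg Fo)
open Pool.Agent.Lib.MP_009d13_co.SP (TS pt vs e1 fF BAD Cert)

/-! ### Computable part -/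

/-- `k` integers, digits of `M` in base `2 ^ w`, shifted by `2 ^ (w - 1)`. -/
def unr (w : ℕ) : ℕ → ℕ → List ℤ
  | 0, _ => []
  | k + 1, M => Int.subNatNat (M % 2 ^ w) (2 ^ (w - 1)) :: unr w k (M / 2 ^ w)

/-- An upper triangular matrix with `k` rows. -/
def unm (w : ℕ) : ℕ → ℕ → List (List ℤ)
  | 0, _ => []
  | k + 1, M => unr w (k + 1) M :: unm w k (M / 2 ^ (w * (k + 1)))

/-- Items with a common factor. -/
def scl (m : ℤ) : List (ℤ × List (ℕ × ℕ × List ℕ)) → List (ℤ × List (ℕ × ℕ × List ℕ))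
  | [] => []
  | i :: is => (m * i.1, i.2) :: scl m is

/-- A type: number of vertices, codes of the edges, matrix, permutations. -/
structure Ty where
  v : ℕ
  T : List ℕ
  w : ℕ
  M : ℕ
  P : ℕ

/-- The matrix of a type. -/
def Ty.mat (t : Ty) : List (List ℤ) := unm t.w (fl t.v).length t.M

/-- The type has `l - 1` edges and its matrix is positive semidefinite. -/
def Ty.ok (l : ℕ) (t : Ty) : Bool :=
  decide (t.v + 4 ≤ 16) && okh t.v t.T && Nat.beq (t.T.length + 1) l &&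
    shp (fl t.v).length t.mat && psd (fl t.v).length 1 t.mat

/-- The terms of a type. -/
def Ty.nf (m : ℤ) (t : Ty) : List (ℕ × ℤ) :=
  msr 40 (blk (scl m (qit t.v t.T (fl t.v) t.mat)) t.P)

/-- All types are fine. -/
def oka (l : ℕ) : List Ty → Bool
  | [] => true
  | t :: ts => t.ok l && oka l ts

/-- The terms of all types. -/
def nfa (m : ℤ) : List Ty → List (ℕ × ℤ)
  | [] => []
  | t :: ts => mrg 100000 (t.nf m) (nfa m ts)

/-- `A` times the total minus the part with at least `l + 1` vertices. -/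
def cmb (A l : ℕ) : List (ℕ × ℤ) → List (ℕ × ℤ)
  | [] => []
  | t :: ts => (t.1, ((A : ℤ) - if l + 1 ≤ t.1 % 64 then 1 else 0) * t.2) :: cmb A l ts

/-- No negative coefficients. -/
def nng : List (ℕ × ℤ) → Bool
  | [] => true
  | t :: ts => decide (0 ≤ t.2) && nng ts

/-- The terms of the main part. -/
def mpt (l A B PF : ℕ) (Ps : List ℕ) : List (ℕ × ℤ) :=
  mrg 100000 (msr 40 (cmb A l (lvl 0 Ps [(0, 1)]))) (msr 40 (blk (fit l (-B)) PF))

/-- The check of the main part. -/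
def chm (l A B : ℕ) (Ps : List ℕ) : Bool :=
  decide (1 ≤ l) && decide (l ≤ 11) && decide (0 < B) &&
    Nat.beq (A * (2 * l) ^ (l + 1)) (B * (16 * l * (l + 1))) &&
    Nat.beq Ps.length (l + 1) && okl 0 Ps [(0, 1)]

noncomputable section

set_option linter.unusedSectionVars false

/-- The value of a list of terms is never positive. -/
def Neg (n : ℕ) (ts : List (ℕ × ℤ)) : Prop :=
  ∀ (V : Type) [Fintype V] (μ : V → V → ℝ), Wt μ → ev μ o1 n ts ≤ 0

theorem neg_nil (n : ℕ) : Neg n [] := fun _ _ _ _ => le_refl _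

theorem neg_mrg {n m : ℕ} {xs ys : List (ℕ × ℤ)} (hx : Neg n xs) (hy : Neg n ys) :
    Neg n (mrg m xs ys) := fun V _ μ hμ => by
  rw [ev_mrg]
  linarith [hx V μ hμ, hy V μ hμ]

variable {V : Type} [Fintype V]

theorem scl_iv (μ : V → V → ℝ) (G : Finset V → ℝ) (m : ℤ) :
    ∀ is : List (ℤ × List (ℕ × ℕ × List ℕ)), iv μ G (scl m is) = m * iv μ G is
  | [] => by simp [scl, iv]
  | i :: is => by
    rw [scl, iv, iv, scl_iv μ G m is]
    push_cast
    ring

theorem scl_gd {n : ℕ} (m : ℤ) : ∀ {is : List (ℤ × List (ℕ × ℕ × List ℕ))}, gdi n is →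
    gdi n (scl m is)
  | [], _ => fun j hj => by simp [scl] at hj
  | i :: is, h => fun j hj => by
    rw [scl, List.mem_cons] at hj
    rcases hj with rfl | hj
    · exact h i (by simp)
    · exact scl_gd m (fun k hk => h k (by simp [hk])) j hj

theorem Ty.neg {l : ℕ} {m : ℤ} (hm : m ≤ 0) {t : Ty} (h : t.ok l = true) :
    Neg (l + 1) (t.nf m) := fun V _ μ hμ => by
  unfold Ty.ok at h
  simp only [Bool.and_eq_true, decide_eq_true_iff] at h
  obtain ⟨⟨⟨⟨h1, h2⟩, h3⟩, h4⟩, h5⟩ := h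
  have h3' : t.T.length + 1 = l := Nat.eq_of_beq_eq_true h3
  have h6 : gdi (l + 1) (qit t.v t.T (fl t.v) t.mat) := by
    rw [← h3']
    exact qit_gd h2 h1 _ _ (okf_fl t.v)
  unfold Ty.nf
  rw [ev_msr, ev_blk hμ o1 (l + 1) _ _ (scl_gd m h6), scl_iv]
  have h7 := qit_nonneg hμ h2 h1 h4 h5
  have h8 : (m : ℝ) ≤ 0 := by exact_mod_cast hm
  exact mul_nonpos_of_nonpos_of_nonneg h8 h7

theorem nfa_neg {l : ℕ} {m : ℤ} (hm : m ≤ 0) : ∀ {ts : List Ty}, oka l ts = true →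
    Neg (l + 1) (nfa m ts)
  | [], _ => neg_nil _
  | t :: ts, h => by
    rw [oka, Bool.and_eq_true] at h
    exact neg_mrg (Ty.neg hm h.1) (nfa_neg hm h.2)

theorem Ek_bad (μ : V → V → ℝ) (l n k : ℕ) :
    Ek μ (fun A => if l + 1 ≤ A.card then 1 else 0) n k
      = (if l + 1 ≤ k % 64 then 1 else 0) * Ek μ o1 n k := by
  unfold Ek E
  rw [Finset.mul_sum]
  refine Finset.sum_congr rfl fun L hL => ?_
  obtain ⟨h1, h2, -⟩ := mem_NL.1 hL
  have h3 : L.toFinset.card = k % 64 := by rw [List.toFinset_card_of_nodup h2, h1]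
  simp only [h3, o1]
  ring

theorem ev_cmb (μ : V → V → ℝ) (A l n : ℕ) : ∀ ts : List (ℕ × ℤ),
    ev μ o1 n (cmb A l ts)
      = A * ev μ o1 n ts - ev μ (fun A => if l + 1 ≤ A.card then 1 else 0) n ts
  | [] => by simp [cmb, ev]
  | t :: ts => by
    rw [cmb, ev, ev, ev, ev_cmb μ A l n ts, Ek_bad]
    split_ifs <;> push_cast <;> ring

theorem nng_ev {μ : V → V → ℝ} (hμ : Wt μ) (n : ℕ) : ∀ ts : List (ℕ × ℤ), nng ts = true →
    0 ≤ ev μ o1 n ts
  | [], _ => le_refl _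
  | t :: ts, h => by
    rw [nng, Bool.and_eq_true, decide_eq_true_iff] at h
    rw [ev]
    have h1 : (0 : ℝ) ≤ (t.2 : ℝ) := by exact_mod_cast h.1
    have h2 : 0 ≤ Ek μ o1 n t.1 := E_nonneg hμ (fun _ => zero_le_one) _ _
    have h3 := nng_ev hμ n ts h.2
    positivity

theorem ev_mpt {μ : V → V → ℝ} (hμ : Wt μ) {l A B PF : ℕ} {Ps : List ℕ}
    (h : chm l A B Ps = true) :
    ev μ o1 (l + 1) (mpt l A B PF Ps)
      = A * (2 * ms μ ∅) ^ (l + 1) - BAD l μ - B * TS (l + 1) (fF l) μ := by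
  unfold chm at h
  simp only [Bool.and_eq_true, decide_eq_true_iff] at h
  obtain ⟨⟨⟨⟨⟨h1, h2⟩, h3⟩, h4⟩, h5⟩, h6⟩ := h
  have h5' : Ps.length = l + 1 := Nat.eq_of_beq_eq_true h5
  have h7 : ∀ G : Finset V → ℝ, TS (l + 1) (fun φ => G (vs φ)) μ
      = ev μ G (l + 1) (lvl 0 Ps [(0, 1)]) := by
    intro G
    have := lvl_ts hμ Ps 0 [(0, 1)] h6 (fun G => lvl_zero G) G
    rw [zero_add, h5'] at this
    exact this
  have h8 : ev μ o1 (l + 1) (lvl 0 Ps [(0, 1)]) = (2 * ms μ ∅) ^ (l + 1) := by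
    rw [← h7 o1, ← SP.ts_one]
    rfl
  have h9 : ev μ (fun A => if l + 1 ≤ A.card then 1 else 0) (l + 1) (lvl 0 Ps [(0, 1)])
      = BAD l μ := by
    rw [← h7]
    rfl
  unfold mpt
  rw [ev_mrg, ev_msr, ev_msr, ev_cmb, h8, h9, ev_blk hμ o1 (l + 1) _ _ (fit_gd h1 h2 _),
    fit_iv hμ h1 h2, SP.fo_ts hμ h1]
  push_cast
  ring

/-- Soundness of the checker. -/
theorem cert_of {l A B PF : ℕ} {Ps : List ℕ} (ns : List (ℕ × ℤ)) (h : chm l A B Ps = true)
    (hn : Neg (l + 1) ns) (hf : nng (mrg 100000 (mpt l A B PF Ps) ns) = true) : Cert l := by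
  have h' := h
  unfold chm at h'
  simp only [Bool.and_eq_true, decide_eq_true_iff] at h'
  obtain ⟨⟨⟨⟨⟨h1, h2⟩, h3⟩, h4⟩, -⟩, -⟩ := h'
  have h4' : A * (2 * l) ^ (l + 1) = B * (16 * l * (l + 1)) := Nat.eq_of_beq_eq_true h4
  have h4r : (A : ℝ) * (2 * l) ^ (l + 1) = B * (16 * l * (l + 1)) := by exact_mod_cast h4'
  have hB : (0 : ℝ) < B := by exact_mod_cast h3
  have hl : (0 : ℝ) < l := by exact_mod_cast h1
  refine ⟨1 / B, by positivity, fun V _ μ hμ => ?_⟩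
  have e1 := nng_ev hμ (l + 1) _ hf
  rw [ev_mrg, ev_mpt hμ h] at e1
  have e2 := hn V μ hμ
  have e3 : (A : ℝ) * (2 * ms μ ∅) ^ (l + 1)
      = B * (16 * l * (l + 1) * (ms μ ∅ / l) ^ (l + 1)) := by
    have : (2 * ms μ ∅) = (2 * l) * (ms μ ∅ / l) := by field_simp
    rw [this, mul_pow, ← mul_assoc, h4r]
    ring
  rw [e3] at e1
  have e4 : B * (TS (l + 1) (fF l) μ + 1 / B * BAD l μ)
      ≤ B * (16 * l * (l + 1) * (ms μ ∅ / l) ^ (l + 1)) := by
    have : (B : ℝ) * (TS (l + 1) (fF l) μ + 1 / B * BAD l μ)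
        = B * TS (l + 1) (fF l) μ + BAD l μ := by field_simp
    rw [this]
    linarith
  exact le_of_mul_le_mul_left e4 hB

end

/-- The complete check in one step. -/
def chk (l A B m PF : ℕ) (Ps : List ℕ) (ts : List Ty) : Bool :=
  chm l A B Ps && oka l ts && nng (mrg 100000 (mpt l A B PF Ps) (nfa (-m) ts))

theorem cert_chk {l A B m PF : ℕ} {Ps : List ℕ} {ts : List Ty}
    (h : chk l A B m PF Ps ts = true) : Cert l := by
  unfold chk at h
  simp only [Bool.and_eq_true] at h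
  obtain ⟨⟨h1, h2⟩, h3⟩ := h
  exact cert_of (nfa (-m) ts) h1 (nfa_neg (by simp) h2) h3

end Pool.Agent.Lib.MP_009d13_co.FL
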