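import Pool.Agent.Lib.MP_009d13_co.OD.LS3
import Pool.Agent.Lib.MP_009d13_co.FL.Alg

/-!
# Sums over injective maps and relabelling
-/

set_option autoImplicit false

namespace Pool.Agent.Lib.MP_009d13_co.FL

open Finset Classical
open Pool.Agent.Lib.MP_009d13_co.OD (NL mem_NL Wt sum_NL_succ sum_NL_snoc sum_NL_append)

noncomputable section

set_option linter.unusedSectionVars false

variable {V : Type} [Fintype V]

/-- The class between the entries `a` and `b` of `L`. -/
def wt (μ : V → V → ℝ) (L : List V) (a b : ℕ) : ℝ :=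
  match L[a]?, L[b]? with
  | some x, some y => μ x y
  | _, _ => 0

/-- The monomial of a multigraph. -/
def mo (μ : V → V → ℝ) (L : List V) : List ℕ → ℝ
  | [] => 1
  | c :: t => wt μ L (c / 16) (c % 16) * mo μ L t

/-- The sum of the monomials of a multigraph over all injective maps, weighted by a function of
the image. -/
def E (μ : V → V → ℝ) (G : Finset V → ℝ) (v : ℕ) (H : List ℕ) : ℝ :=
  ∑ L ∈ NL (∅ : Finset V) v, G L.toFinset * mo μ L H

/-- The sum belonging to a key of a multigraph with `n` edges. -/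
def Ek (μ : V → V → ℝ) (G : Finset V → ℝ) (n k : ℕ) : ℝ := E μ G (k % 64) (dec n (k / 64))

/-- Value of a list of terms. -/
def ev (μ : V → V → ℝ) (G : Finset V → ℝ) (n : ℕ) : List (ℕ × ℤ) → ℝ
  | [] => 0
  | t :: ts => t.2 * Ek μ G n t.1 + ev μ G n ts

theorem wt_symm {μ : V → V → ℝ} (h : Wt μ) (L : List V) (a b : ℕ) : wt μ L a b = wt μ L b a := by
  unfold wt
  cases L[a]? <;> cases L[b]? <;> simp [h.symm _ _]

theorem wt_nonneg {μ : V → V → ℝ} (h : Wt μ) (L : List V) (a b : ℕ) : 0 ≤ wt μ L a b := by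
  unfold wt
  cases L[a]? <;> cases L[b]? <;> simp [h.nonneg _ _]

theorem wt_self {μ : V → V → ℝ} (h : Wt μ) (L : List V) (a : ℕ) : wt μ L a a = 0 := by
  unfold wt
  cases L[a]? <;> simp [h.diag _]

theorem mo_nonneg {μ : V → V → ℝ} (h : Wt μ) (L : List V) : ∀ H : List ℕ, 0 ≤ mo μ L H
  | [] => by simp [mo]
  | c :: t => by
    rw [mo]
    exact mul_nonneg (wt_nonneg h L _ _) (mo_nonneg h L t)

theorem E_nonneg {μ : V → V → ℝ} (h : Wt μ) {G : Finset V → ℝ} (hG : ∀ A, 0 ≤ G A) (v : ℕ)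
    (H : List ℕ) : 0 ≤ E μ G v H :=
  Finset.sum_nonneg fun L _ => mul_nonneg (hG _) (mo_nonneg h L H)

theorem mo_perm {μ : V → V → ℝ} (L : List V) {H H' : List ℕ} (h : H.Perm H') :
    mo μ L H = mo μ L H' := by
  induction h with
  | nil => rfl
  | cons x _ ih => rw [mo, mo, ih]
  | swap x y l => rw [mo, mo, mo, mo]; ring
  | trans _ _ ih1 ih2 => rw [ih1, ih2]

theorem mo_append (μ : V → V → ℝ) (L : List V) : ∀ H H' : List ℕ,
    mo μ L (H ++ H') = mo μ L H * mo μ L H'
  | [], H' => by simp [mo]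
  | c :: t, H' => by
    rw [List.cons_append, mo, mo, mo_append μ L t H']; ring

/-! ### Sorting and coding -/

theorem ins_perm (c : ℕ) : ∀ H : List ℕ, (ins c H).Perm (c :: H)
  | [] => by simp [ins]
  | d :: t => by
    rw [ins]
    split_ifs
    · exact List.Perm.refl _
    · exact ((ins_perm c t).cons d).trans (List.Perm.swap c d t)

theorem srt_perm : ∀ H : List ℕ, (srt H).Perm H
  | [] => by simp [srt]
  | c :: t => by
    rw [srt]
    exact (ins_perm c (srt t)).trans ((srt_perm t).cons c)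

theorem dec_enc : ∀ H : List ℕ, (∀ c ∈ H, c < 256) → dec H.length (enc H) = H
  | [], _ => rfl
  | c :: t, h => by
    have hc : c < 256 := h c (by simp)
    rw [List.length_cons, dec, enc]
    have h1 : (c + 256 * enc t) % 256 = c := by omega
    have h2 : (c + 256 * enc t) / 256 = enc t := by omega
    rw [h1, h2, dec_enc t fun d hd => h d (by simp [hd])]

theorem dec_length : ∀ n k : ℕ, (dec n k).length = n
  | 0, _ => rfl
  | n + 1, k => by rw [dec, List.length_cons, dec_length n]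

theorem dec_lt : ∀ n k : ℕ, ∀ c ∈ dec n k, c < 256
  | 0, _, c, h => by simp [dec] at h
  | n + 1, k, c, h => by
    rw [dec, List.mem_cons] at h
    rcases h with rfl | h
    · omega
    · exact dec_lt n _ c h

/-! ### Relabelling -/

theorem sum_NL_emb (v : ℕ) (g : List V → ℝ) :
    ∑ L ∈ NL (∅ : Finset V) v, g L = ∑ f : Fin v ↪ V, g (List.ofFn f) := by
  symm
  refine Finset.sum_bij (fun (f : Fin v ↪ V) _ => List.ofFn f) ?_ ?_ ?_ ?_
  · intro f _
    rw [mem_NL]
    exact ⟨by simp, List.nodup_ofFn_ofInjective f.injective, by simp⟩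
  · intro f _ f' _ h
    exact DFunLike.coe_injective (List.ofFn_injective h)
  · intro L hL
    rw [mem_NL] at hL
    obtain ⟨h1, h2, -⟩ := hL
    subst h1
    refine ⟨⟨L.get, List.nodup_iff_injective_get.mp h2⟩, Finset.mem_univ _, ?_⟩
    exact List.ofFn_get L
  · intro f _
    rfl

theorem msk_testBit (p : ℕ) : ∀ (v j : ℕ), (msk p v).testBit j = true ↔ ∃ a, a < v ∧ dj p a = j
  | 0, j => by simp [msk]
  | v + 1, j => by
    rw [msk, Nat.testBit_lor, Bool.or_eq_true, msk_testBit p v j, Nat.testBit_two_pow,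
      decide_eq_true_iff]
    constructor
    · rintro (h | ⟨a, ha, h⟩)
      · exact ⟨v, Nat.lt_succ_self v, h⟩
      · exact ⟨a, by omega, h⟩
    · rintro ⟨a, ha, h⟩
      rcases Nat.lt_succ_iff_lt_or_eq.mp ha with h' | h'
      · exact Or.inr ⟨a, h', h⟩
      · subst h'; exact Or.inl h

theorem okp_surj {v p : ℕ} (h : okp v p = true) (j : ℕ) : j < v ↔ ∃ a, a < v ∧ dj p a = j := by
  have h1 : msk p v = 2 ^ v - 1 := Nat.eq_of_beq_eq_true h
  rw [← msk_testBit, h1, Nat.testBit_two_pow_sub_one, decide_eq_true_iff]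

/-- The permutation coded by `p`. -/
def pm {v p : ℕ} (h : okp v p = true) : Equiv.Perm (Fin v) :=
  Equiv.ofBijective (fun i : Fin v => ⟨dj p i.1, (okp_surj h _).2 ⟨i.1, i.2, rfl⟩⟩)
    (Function.Surjective.bijective_of_finite fun j => by
      obtain ⟨a, ha, h'⟩ := (okp_surj h j.1).1 j.2
      exact ⟨⟨a, ha⟩, Fin.ext h'⟩)

theorem pm_val {v p : ℕ} (h : okp v p = true) (i : Fin v) : ((pm h) i).1 = dj p i.1 := rfl

theorem get_pm {v p : ℕ} (h : okp v p = true) (f : Fin v ↪ V) (a : ℕ) :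
    (List.ofFn f)[rj v p a]? = (List.ofFn ((pm h).toEmbedding.trans f))[a]? := by
  unfold rj
  rw [List.getElem?_ofFn, List.getElem?_ofFn]
  by_cases ha : a < v
  · have h1 : dj p a < v := (okp_surj h _).2 ⟨a, ha, rfl⟩
    rw [if_pos ha, dif_pos h1, dif_pos ha]
    rfl
  · rw [if_neg ha, dif_neg ha, dif_neg ha]

theorem wt_pm {μ : V → V → ℝ} {v p : ℕ} (h : okp v p = true) (f : Fin v ↪ V) (a b : ℕ) :
    wt μ (List.ofFn f) (rj v p a) (rj v p b)
      = wt μ (List.ofFn ((pm h).toEmbedding.trans f)) a b := by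
  unfold wt
  rw [get_pm h f a, get_pm h f b]

theorem nm_div {a b : ℕ} (ha : a < 16) (hb : b < 16) (μ : V → V → ℝ) (hμ : Wt μ) (L : List V) :
    wt μ L (nm a b / 16) (nm a b % 16) = wt μ L a b := by
  unfold nm
  split_ifs
  · have h1 : (16 * a + b) / 16 = a := by omega
    have h2 : (16 * a + b) % 16 = b := by omega
    rw [h1, h2]
  · have h1 : (16 * b + a) / 16 = b := by omega
    have h2 : (16 * b + a) % 16 = a := by omega
    rw [h1, h2, wt_symm hμ]

theorem rj_lt {v p a : ℕ} (ha : a < 16) : rj v p a < 16 := by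
  unfold rj dj
  split_ifs
  · exact Nat.mod_lt _ (by norm_num)
  · exact ha

theorem nm_lt {a b : ℕ} (ha : a < 16) (hb : b < 16) : nm a b < 256 := by
  unfold nm
  split_ifs <;> omega

theorem rl_lt {v p c : ℕ} (hc : c < 256) : rl v p c < 256 :=
  nm_lt (rj_lt (by omega)) (rj_lt (by omega))

theorem mo_map {μ : V → V → ℝ} (hμ : Wt μ) {v p : ℕ} (h : okp v p = true) (f : Fin v ↪ V) :
    ∀ H : List ℕ, (∀ c ∈ H, c < 256) → mo μ (List.ofFn f) (H.map (rl v p))
      = mo μ (List.ofFn ((pm h).toEmbedding.trans f)) H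
  | [], _ => rfl
  | c :: t, hH => by
    have hc : c < 256 := hH c (by simp)
    rw [List.map_cons, mo, mo, mo_map hμ h f t fun d hd => hH d (by simp [hd])]
    unfold rl
    rw [nm_div (rj_lt (by omega)) (rj_lt (by omega)) μ hμ, wt_pm h f]

theorem toFinset_pm {v p : ℕ} (h : okp v p = true) (f : Fin v ↪ V) :
    (List.ofFn ((pm h).toEmbedding.trans f)).toFinset = (List.ofFn f).toFinset := by
  ext x
  rw [List.mem_toFinset, List.mem_toFinset, List.mem_ofFn, List.mem_ofFn]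
  constructor
  · rintro ⟨i, rfl⟩
    exact ⟨pm h i, rfl⟩
  · rintro ⟨i, rfl⟩
    exact ⟨(pm h).symm i, by simp⟩

theorem E_map {μ : V → V → ℝ} (hμ : Wt μ) (G : Finset V → ℝ) {v p : ℕ} (h : okp v p = true)
    {H : List ℕ} (hH : ∀ c ∈ H, c < 256) : E μ G v (H.map (rl v p)) = E μ G v H := by
  unfold E
  rw [sum_NL_emb, sum_NL_emb]
  let e : (Fin v ↪ V) ≃ (Fin v ↪ V) :=
    { toFun := fun f => (pm h).toEmbedding.trans f
      invFun := fun f => (pm h).symm.toEmbedding.trans f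
      left_inv := fun f => by ext i; simp
      right_inv := fun f => by ext i; simp }
  refine Fintype.sum_equiv e _ _ fun f => ?_
  rw [mo_map hμ h f H hH]
  show _ = G (List.ofFn ((pm h).toEmbedding.trans f)).toFinset * _
  rw [toFinset_pm h f]
  rfl

theorem idp_okp : ∀ v : ℕ, v ≤ 16 → okp v idp = true := by
  decide

theorem Ek_key0 {μ : V → V → ℝ} (hμ : Wt μ) (G : Finset V → ℝ) {v p : ℕ} (h : okp v p = true) {H : List ℕ}
    (hH : ∀ c ∈ H, c < 256) (hv : v < 64) {n : ℕ} (hn : H.length = n) :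
    Ek μ G n (key0 v p H) = E μ G v H := by
  have h1 : key0 v p H % 64 = v := by unfold key0; omega
  have h2 : key0 v p H / 64 = enc (srt (H.map (rl v p))) := by unfold key0; omega
  have h3 : (srt (H.map (rl v p))).Perm (H.map (rl v p)) := srt_perm _
  have h4 : (srt (H.map (rl v p))).length = n := by
    rw [h3.length_eq, List.length_map, hn]
  have h5 : ∀ c ∈ srt (H.map (rl v p)), c < 256 := by
    intro c hc
    have := h3.subset hc
    rw [List.mem_map] at this
    obtain ⟨d, hd, rfl⟩ := this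
    exact rl_lt (hH d hd)
  unfold Ek
  rw [h1, h2]
  have h6 := dec_enc _ h5
  rw [h4] at h6
  rw [h6, ← E_map hμ G h hH]
  unfold E
  exact Finset.sum_congr rfl fun L _ => by rw [mo_perm L h3]

theorem Ek_key {μ : V → V → ℝ} (hμ : Wt μ) (G : Finset V → ℝ) {v p : ℕ} {H : List ℕ}
    (hH : ∀ c ∈ H, c < 256) (hv : v ≤ 16) {n : ℕ} (hn : H.length = n) :
    Ek μ G n (key v p H) = E μ G v H := by
  unfold key
  split_ifs with h
  · exact Ek_key0 hμ G h hH (by omega) hn
  · exact Ek_key0 hμ G (idp_okp v hv) hH (by omega) hn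

/-! ### Lists of terms -/

theorem ev_append (μ : V → V → ℝ) (G : Finset V → ℝ) (n : ℕ) : ∀ xs ys : List (ℕ × ℤ),
    ev μ G n (xs ++ ys) = ev μ G n xs + ev μ G n ys
  | [], ys => by simp [ev]
  | x :: xs, ys => by rw [List.cons_append, ev, ev, ev_append μ G n xs ys]; ring

theorem ev_mrg (μ : V → V → ℝ) (G : Finset V → ℝ) (n : ℕ) : ∀ (m : ℕ) (xs ys : List (ℕ × ℤ)),
    ev μ G n (mrg m xs ys) = ev μ G n xs + ev μ G n ys
  | 0, xs, ys => by rw [mrg, ev_append]
  | _ + 1, [], ys => by simp [mrg, ev]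
  | _ + 1, x :: xs, [] => by simp [mrg, ev]
  | m + 1, x :: xs, y :: ys => by
    rw [mrg]
    split_ifs with h1 h2
    · rw [ev, ev_mrg μ G n m xs (y :: ys), ev, ev]; ring
    · rw [ev, ev_mrg μ G n m (x :: xs) ys, ev, ev]; ring
    · have h3 : x.1 = y.1 := by omega
      rw [ev, ev_mrg μ G n m xs ys, ev, ev, h3]
      push_cast
      ring

theorem ev_spl (μ : V → V → ℝ) (G : Finset V → ℝ) (n : ℕ) : ∀ xs : List (ℕ × ℤ),
    ev μ G n (spl xs).1 + ev μ G n (spl xs).2 = ev μ G n xs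
  | [] => by simp [spl, ev]
  | x :: xs => by
    have := ev_spl μ G n xs
    rw [spl, ev, ev]
    linarith

theorem ev_msr (μ : V → V → ℝ) (G : Finset V → ℝ) (n : ℕ) : ∀ (m : ℕ) (xs : List (ℕ × ℤ)),
    ev μ G n (msr m xs) = ev μ G n xs
  | 0, _ => rfl
  | _ + 1, [] => rfl
  | _ + 1, [_] => rfl
  | m + 1, x :: y :: xs => by
    rw [msr, ev_mrg, ev_msr μ G n m, ev_msr μ G n m, ev_spl]

theorem ev_cns (μ : V → V → ℝ) (G : Finset V → ℝ) (n k : ℕ) (c : ℤ) (r : List (ℕ × ℤ)) :
    ev μ G n (cns k c r) = c * Ek μ G n k + ev μ G n r := by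
  cases k <;> rfl

/-- Value of a list of multigraphs. -/
def et (μ : V → V → ℝ) (G : Finset V → ℝ) : List (ℕ × ℕ × List ℕ) → ℝ
  | [] => 0
  | t :: ts => t.1 * E μ G t.2.1 t.2.2 + et μ G ts

theorem et_append (μ : V → V → ℝ) (G : Finset V → ℝ) : ∀ xs ys : List (ℕ × ℕ × List ℕ),
    et μ G (xs ++ ys) = et μ G xs + et μ G ys
  | [], ys => by simp [et]
  | x :: xs, ys => by rw [List.cons_append, et, et, et_append μ G xs ys]; ring

/-- All codes are small and there are `n` edges. -/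
def gd (n : ℕ) (ts : List (ℕ × ℕ × List ℕ)) : Prop :=
  ∀ t ∈ ts, t.2.1 ≤ 16 ∧ t.2.2.length = n ∧ ∀ c ∈ t.2.2, c < 256

theorem ev_tms {μ : V → V → ℝ} (hμ : Wt μ) (G : Finset V → ℝ) (n : ℕ) (q : ℤ) : ∀ (ts : List (ℕ × ℕ × List ℕ))
    (P : ℕ), gd n ts → ev μ G n (tms q ts P) = q * et μ G ts
  | [], _, _ => by simp [tms, ev, et]
  | t :: ts, P, h => by
    have h1 := h t (by simp)
    rw [tms, ev_cns, ev_tms hμ G n q ts _ fun s hs => h s (by simp [hs]), et,
      Ek_key hμ G h1.2.2 h1.1 h1.2.1]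
    push_cast
    ring

end

end Pool.Agent.Lib.MP_009d13_co.FL
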