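import Pool.Agent.Lib.MP_009d13_co.OD.OPA
import Pool.Agent.Lib.MP_009d13_co.FL.Sem

/-!
# Products of flags
-/

set_option autoImplicit false

namespace Pool.Agent.Lib.MP_009d13_co.FL

open Finset Classical
open Pool.Agent.Lib.MP_009d13_co.OD (NL mem_NL Wt sum_NL_succ sum_NL_snoc sum_NL_append un ms dg
  un_insert ms_insert sum_un)

noncomputable section

set_option linter.unusedSectionVars false

variable {V : Type} [Fintype V]

/-- Mass of the classes from the entry `a` to the outside of `A`. -/
def uo (μ : V → V → ℝ) (A : Finset V) (L : List V) (a : ℕ) : ℝ :=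
  match L[a]? with
  | some x => un μ A x
  | none => 0

/-- Value of a flag relative to the first `v0` entries. -/
def val (μ : V → V → ℝ) (v0 : ℕ) (L : List V) : Fl → ℝ
  | .inn a b => wt μ L a b
  | .out a => uo μ (L.take v0).toFinset L a
  | .oo => 2 * ms μ (L.take v0).toFinset

/-- The labels of a flag are below `v`. -/
def okf (v : ℕ) : Fl → Bool
  | .inn a b => decide (a < v) && decide (b < v)
  | .out a => decide (a < v)
  | .oo => true

theorem take_succ_toFinset {L : List V} {j : ℕ} {y : V} (hy : L[j]? = some y) :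
    (L.take (j + 1)).toFinset = insert y (L.take j).toFinset := by
  rw [List.take_add_one, hy]
  ext z
  simp

theorem notMem_take {L : List V} (hL : L.Nodup) {j : ℕ} {y : V} (hy : L[j]? = some y) :
    y ∉ (L.take j).toFinset := by
  rw [List.mem_toFinset]
  intro h
  obtain ⟨i, hi, h'⟩ := List.mem_iff_getElem.mp h
  rw [List.getElem_take] at h'
  have hi' : i < j := by
    rw [List.length_take] at hi
    omega
  obtain ⟨hj, hy'⟩ := List.getElem?_eq_some_iff.mp hy
  have : i = j := (List.Nodup.getElem_inj_iff hL).mp (h'.trans hy'.symm)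
  omega

/-- The sum of the values of `f` over a list. -/
def lsum {α : Type} (f : α → ℝ) : List α → ℝ
  | [] => 0
  | x :: xs => f x + lsum f xs

theorem lsum_append {α : Type} (f : α → ℝ) : ∀ xs ys : List α,
    lsum f (xs ++ ys) = lsum f xs + lsum f ys
  | [], ys => by simp [lsum]
  | x :: xs, ys => by rw [List.cons_append, lsum, lsum, lsum_append f xs ys]; ring

theorem lsum_map {α β : Type} (f : β → ℝ) (g : α → β) : ∀ xs : List α,
    lsum f (xs.map g) = lsum (fun x => f (g x)) xs
  | [] => rfl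
  | x :: xs => by rw [List.map_cons, lsum, lsum, lsum_map f g xs]

theorem lsum_congr {α : Type} {f g : α → ℝ} : ∀ {xs : List α}, (∀ x ∈ xs, f x = g x) →
    lsum f xs = lsum g xs
  | [], _ => rfl
  | x :: xs, h => by
    rw [lsum, lsum, h x (by simp), lsum_congr fun y hy => h y (by simp [hy])]

theorem lsum_mul {α : Type} (c : ℝ) (f : α → ℝ) : ∀ xs : List α,
    lsum (fun x => c * f x) xs = c * lsum f xs
  | [] => by simp [lsum]
  | x :: xs => by rw [lsum, lsum, lsum_mul c f xs]; ring

theorem lsum_sum {α β : Type} (s : Finset β) (f : β → α → ℝ) : ∀ xs : List α,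
    ∑ b ∈ s, lsum (f b) xs = lsum (fun x => ∑ b ∈ s, f b x) xs
  | [] => by simp [lsum]
  | x :: xs => by
    rw [lsum, ← lsum_sum s f xs, ← Finset.sum_add_distrib]
    rfl

theorem lsum_filter {α : Type} (f : α → ℝ) (p : α → Bool) : ∀ xs : List α,
    (∀ x ∈ xs, p x = false → f x = 0) → lsum f (xs.filter p) = lsum f xs
  | [], _ => rfl
  | x :: xs, h => by
    have ih := lsum_filter f p xs fun y hy => h y (by simp [hy])
    rw [List.filter_cons]
    split_ifs with h1
    · rw [lsum, lsum, ih]
    · rw [lsum, ih, h x (by simp) (by simpa using h1), zero_add]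

theorem mem_rg : ∀ {s k j : ℕ}, j ∈ rg s k ↔ s ≤ j ∧ j < s + k
  | s, 0, j => by simp [rg]
  | s, k + 1, j => by
    rw [rg, List.mem_cons, mem_rg]
    omega

theorem mem_prs : ∀ {s k : ℕ} {p : ℕ × ℕ}, p ∈ prs s k → s ≤ p.1 ∧ p.1 < p.2 ∧ p.2 < s + k
  | s, 0, p, h => by simp [prs] at h
  | s, k + 1, p, h => by
    rw [prs, List.mem_append, List.mem_map] at h
    rcases h with ⟨j, hj, rfl⟩ | h
    · rw [mem_rg] at hj
      refine ⟨le_refl _, ?_, ?_⟩ <;> simp <;> omega
    · have := mem_prs h
      omega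

theorem un_rg {μ : V → V → ℝ} {L : List V} (hL : L.Nodup) {a : ℕ} {x : V}
    (hx : L[a]? = some x) : ∀ (k v0 : ℕ), v0 + k ≤ L.length →
    un μ (L.take v0).toFinset x
      = lsum (fun j => wt μ L a j) (rg v0 k) + un μ (L.take (v0 + k)).toFinset x
  | 0, v0, _ => by simp [rg, lsum]
  | k + 1, v0, h => by
    have hj : v0 < L.length := by omega
    have hy : L[v0]? = some L[v0] := List.getElem?_eq_getElem hj
    have ih := un_rg (μ := μ) hL hx k (v0 + 1) (by omega)
    have h1 := un_insert μ (notMem_take hL hy) x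
    rw [← take_succ_toFinset hy] at h1
    have h2 : wt μ L a v0 = μ x L[v0] := by
      unfold wt
      rw [hx, hy]
    rw [rg, lsum, h2, add_assoc, show v0 + (k + 1) = v0 + 1 + k by omega, ← ih, h1]
    ring

theorem ms_rg {μ : V → V → ℝ} (hμ : Wt μ) {L : List V} (hL : L.Nodup) : ∀ (k v0 : ℕ),
    v0 + k ≤ L.length → 2 * ms μ (L.take v0).toFinset
      = lsum (fun p : ℕ × ℕ => 2 * wt μ L p.1 p.2) (prs v0 k)
        + lsum (fun j => 2 * uo μ (L.take (v0 + k)).toFinset L j) (rg v0 k)
        + 2 * ms μ (L.take (v0 + k)).toFinset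
  | 0, v0, _ => by simp [rg, prs, lsum]
  | k + 1, v0, h => by
    have hj : v0 < L.length := by omega
    have hy : L[v0]? = some L[v0] := List.getElem?_eq_getElem hj
    have ih := ms_rg hμ hL k (v0 + 1) (by omega)
    have h1 := ms_insert hμ (notMem_take hL hy)
    have h2 := un_insert μ (notMem_take hL hy) L[v0]
    rw [← take_succ_toFinset hy] at h1 h2
    have h3 := un_rg (μ := μ) hL hy k (v0 + 1) (by omega)
    have h4 : uo μ (L.take (v0 + (k + 1))).toFinset L v0
        = un μ (L.take (v0 + 1 + k)).toFinset L[v0] := by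
      unfold uo
      rw [hy, show v0 + (k + 1) = v0 + 1 + k by omega]
    rw [prs, rg, lsum_append, lsum, lsum_map, h4, lsum_mul, show v0 + (k + 1) = v0 + 1 + k by omega]
    have h5 : μ L[v0] L[v0] = 0 := hμ.diag _
    show 2 * ms μ (L.take v0).toFinset = 2 * lsum (fun j => wt μ L v0 j) (rg (v0 + 1) k) + _ + _ + _
    linarith

/-! ### New entries -/

theorem sum_snoc (v : ℕ) (f : List V → ℝ) : ∑ L ∈ NL (∅ : Finset V) (v + 1), f L
    = ∑ P ∈ NL (∅ : Finset V) v, ∑ b ∈ P.toFinsetᶜ, f (P ++ [b]) := by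
  rw [sum_NL_snoc]
  refine Finset.sum_congr rfl fun P _ => ?_
  rw [Finset.empty_union]

theorem new_out {μ : V → V → ℝ} (v : ℕ) (g : List V → ℝ) {a : ℕ} (ha : a < v) :
    ∑ L ∈ NL (∅ : Finset V) v, g L * uo μ L.toFinset L a
      = ∑ L ∈ NL (∅ : Finset V) (v + 1), g (L.take v) * wt μ L a v := by
  rw [sum_snoc]
  refine Finset.sum_congr rfl fun P hP => ?_
  have hl : P.length = v := (mem_NL.1 hP).1
  have h1 : ∀ b : V, (P ++ [b]).take v = P := fun b => by
    rw [← hl, List.take_left]
  have h2 : ∀ b : V, (P ++ [b])[v]? = some b := fun b => by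
    rw [← hl]; simp
  have h3 : ∀ b : V, (P ++ [b])[a]? = P[a]? := fun b => by
    rw [List.getElem?_append_left (by omega)]
  have h4 : P[a]? = some P[a] := List.getElem?_eq_getElem (by omega)
  have h5 : ∀ b : V, wt μ (P ++ [b]) a v = μ P[a] b := fun b => by
    unfold wt
    rw [h2, h3, h4]
  simp only [h1, h5]
  rw [← Finset.mul_sum]
  unfold uo
  rw [h4]
  rfl

theorem new_oo {μ : V → V → ℝ} (hμ : Wt μ) (v : ℕ) (g : List V → ℝ) :
    ∑ L ∈ NL (∅ : Finset V) v, g L * (2 * ms μ L.toFinset)
      = ∑ L ∈ NL (∅ : Finset V) (v + 2), g (L.take v) * wt μ L v (v + 1) := by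
  have h0 := new_out (μ := μ) (v + 1) (fun L => g (L.take v)) (a := v) (by omega)
  have h0' : ∑ L ∈ NL (∅ : Finset V) (v + 2), g (L.take v) * wt μ L v (v + 1)
      = ∑ L ∈ NL (∅ : Finset V) (v + 1), g (L.take v) * uo μ L.toFinset L v := by
    rw [h0]
    refine Finset.sum_congr rfl fun L _ => ?_
    rw [List.take_take, min_eq_left (by omega : v ≤ v + 1)]
  rw [h0', sum_snoc]
  refine Finset.sum_congr rfl fun P hP => ?_
  have hl : P.length = v := (mem_NL.1 hP).1
  have h1 : ∀ b : V, (P ++ [b]).take v = P := fun b => by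
    rw [← hl, List.take_left]
  have h2 : ∀ b : V, (P ++ [b])[v]? = some b := fun b => by
    rw [← hl]; simp
  simp only [h1]
  rw [← Finset.mul_sum, ← sum_un]
  congr 1
  refine Finset.sum_congr rfl fun b hb => ?_
  unfold uo
  rw [h2]
  have h3 : (P ++ [b]).toFinset = insert b P.toFinset := by
    ext z; simp
  have h4 := un_insert μ (by simpa using hb : b ∉ P.toFinset) b
  show un μ P.toFinset b = un μ (P ++ [b]).toFinset b
  rw [h3, h4, hμ.diag]
  ring

/-! ### One flag -/

/-- The class with code `e`. -/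
def we (μ : V → V → ℝ) (L : List V) (e : ℕ) : ℝ := wt μ L (e / 16) (e % 16)

theorem we_code {μ : V → V → ℝ} (L : List V) {a b : ℕ} (hb : b < 16) :
    we μ L (16 * a + b) = wt μ L a b := by
  unfold we
  rw [show (16 * a + b) / 16 = a by omega, show (16 * a + b) % 16 = b by omega]

theorem exp1 {μ : V → V → ℝ} (hμ : Wt μ) {v0 v : ℕ} (hv0 : v0 ≤ v) (hv : v + 2 ≤ 16)
    (g : List V → ℝ) {y : Fl} (hy : okf v y = true) :
    ∑ L ∈ NL (∅ : Finset V) v, g L * val μ v0 L y
      = lsum (fun t : ℕ × ℕ × ℕ => (t.1 : ℝ) *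
          ∑ L ∈ NL (∅ : Finset V) (v + t.2.1), g (L.take v) * we μ L t.2.2) (ex1 v0 v y) := by
  have hz : ∀ c e : ℕ, (c : ℝ) * ∑ L ∈ NL (∅ : Finset V) (v + 0), g (L.take v) * we μ L e
      = ∑ L ∈ NL (∅ : Finset V) v, c * (g L * we μ L e) := fun c e => by
    rw [add_zero, Finset.mul_sum]
    refine Finset.sum_congr rfl fun L hL => ?_
    rw [List.take_of_length_le (le_of_eq (mem_NL.1 hL).1)]
  cases y with
  | inn a b =>
    rw [okf, Bool.and_eq_true, decide_eq_true_iff, decide_eq_true_iff] at hy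
    rw [ex1, lsum, lsum, add_zero]
    show _ = ((1 : ℕ) : ℝ) * ∑ L ∈ NL (∅ : Finset V) (v + 0), g (L.take v) * we μ L (16 * a + b)
    rw [hz]
    refine Finset.sum_congr rfl fun L hL => ?_
    rw [we_code L (by omega), val]
    simp
  | out a =>
    rw [okf, decide_eq_true_iff] at hy
    have h1 : ∀ L ∈ NL (∅ : Finset V) v, g L * val μ v0 L (.out a)
        = lsum (fun j => g L * wt μ L a j) (rg v0 (v - v0)) + g L * uo μ L.toFinset L a := by
      intro L hL
      obtain ⟨hl, hn, -⟩ := mem_NL.1 hL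
      have h4 : L[a]? = some L[a] := List.getElem?_eq_getElem (by omega)
      have h5 := un_rg (μ := μ) hn h4 (v - v0) v0 (by omega)
      rw [show v0 + (v - v0) = v by omega, List.take_of_length_le (le_of_eq hl)] at h5
      rw [val, uo, uo, h4]
      show g L * un μ (L.take v0).toFinset L[a] = _ + g L * un μ L.toFinset L[a]
      rw [h5, lsum_mul]
      ring
    rw [Finset.sum_congr rfl h1, Finset.sum_add_distrib, new_out v g hy, ex1, lsum_append,
      lsum_map, lsum_sum]
    congr 1
    · rw [lsum_filter]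
      · refine lsum_congr fun j hj => ?_
        rw [mem_rg] at hj
        show _ = ((1 : ℕ) : ℝ) * ∑ L ∈ NL (∅ : Finset V) (v + 0), g (L.take v) * we μ L (16 * a + j)
        rw [hz]
        refine Finset.sum_congr rfl fun L _ => ?_
        rw [we_code L (by omega)]
        simp
      · intro j hj h
        rw [mem_rg] at hj
        have hja : j = a := by
          have : Nat.beq j a = true := by simpa using h
          exact Nat.eq_of_beq_eq_true this
        subst hja
        show ((1 : ℕ) : ℝ) * ∑ L ∈ NL (∅ : Finset V) (v + 0), g (L.take v) * we μ L (16 * j + j) = 0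
        rw [hz]
        refine Finset.sum_eq_zero fun L _ => ?_
        rw [we_code L (by omega), wt_self hμ]
        simp
    · rw [lsum, lsum, add_zero]
      show _ = ((1 : ℕ) : ℝ) * ∑ L ∈ NL (∅ : Finset V) (v + 1), g (L.take v) * we μ L (16 * a + v)
      rw [Nat.cast_one, one_mul]
      refine Finset.sum_congr rfl fun L _ => ?_
      rw [we_code L (by omega)]
  | oo =>
    have h1 : ∀ L ∈ NL (∅ : Finset V) v, g L * val μ v0 L .oo
        = lsum (fun p : ℕ × ℕ => g L * (2 * wt μ L p.1 p.2)) (prs v0 (v - v0))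
          + lsum (fun j => g L * (2 * uo μ L.toFinset L j)) (rg v0 (v - v0))
          + g L * (2 * ms μ L.toFinset) := by
      intro L hL
      obtain ⟨hl, hn, -⟩ := mem_NL.1 hL
      have h5 := ms_rg hμ hn (v - v0) v0 (by omega)
      rw [show v0 + (v - v0) = v by omega, List.take_of_length_le (le_of_eq hl)] at h5
      rw [val, h5, lsum_mul (g L) (fun p : ℕ × ℕ => 2 * wt μ L p.1 p.2),
        lsum_mul (g L) (fun j => 2 * uo μ L.toFinset L j)]
      ring
    rw [Finset.sum_congr rfl h1, Finset.sum_add_distrib, Finset.sum_add_distrib, new_oo hμ v g,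
      ex1, lsum_append, lsum_append, lsum_map, lsum_map, lsum_sum, lsum_sum]
    congr 1
    · congr 1
      · refine lsum_congr fun p hp => ?_
        have := mem_prs hp
        show _ = ((2 : ℕ) : ℝ) * ∑ L ∈ NL (∅ : Finset V) (v + 0),
          g (L.take v) * we μ L (16 * p.1 + p.2)
        rw [hz]
        refine Finset.sum_congr rfl fun L _ => ?_
        rw [we_code L (by omega)]
        push_cast
        ring
      · refine lsum_congr fun j hj => ?_
        rw [mem_rg] at hj
        show _ = ((2 : ℕ) : ℝ) * ∑ L ∈ NL (∅ : Finset V) (v + 1),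
          g (L.take v) * we μ L (16 * j + v)
        have h2 : ∀ L ∈ NL (∅ : Finset V) v, g L * (2 * uo μ L.toFinset L j)
            = 2 * (g L * uo μ L.toFinset L j) := fun L _ => by ring
        rw [Finset.sum_congr rfl h2, ← Finset.mul_sum, new_out v g (by omega : j < v)]
        push_cast
        congr 1
        refine Finset.sum_congr rfl fun L _ => ?_
        rw [we_code L (by omega)]
    · rw [lsum, lsum, add_zero]
      show _ = ((1 : ℕ) : ℝ) * ∑ L ∈ NL (∅ : Finset V) (v + 2),
        g (L.take v) * we μ L (16 * v + (v + 1))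
      rw [Nat.cast_one, one_mul]
      refine Finset.sum_congr rfl fun L _ => ?_
      rw [we_code L (by omega)]

end

end Pool.Agent.Lib.MP_009d13_co.FL
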