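import Pool.Agent.Lib.MP_009d13_co.FL.Chk

/-!
# The checker written with recursors, for a fast evaluation by the kernel: keys and lists of terms
-/

set_option autoImplicit false

namespace Pool.Agent.Lib.MP_009d13_co.FL

noncomputable section

/-! ### Integers -/

/-- `- k`. -/
def ngF (k : ℕ) : ℤ := Nat.rec (Int.ofNat 0) (fun j _ => Int.negSucc j) k

/-- `m - n`. -/
def sbF (m n : ℕ) : ℤ := Bool.rec (ngF (Nat.sub n m)) (Int.ofNat (Nat.sub m n)) (Nat.ble n m)

/-- Product. -/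
def mlF (a b : ℤ) : ℤ :=
  Int.rec (fun m => Int.rec (fun n => Int.ofNat (Nat.mul m n))
      (fun n => ngF (Nat.mul m (Nat.succ n))) b)
    (fun m => Int.rec (fun n => ngF (Nat.mul (Nat.succ m) n))
      (fun n => Int.ofNat (Nat.mul (Nat.succ m) (Nat.succ n))) b) a

/-- Sum. -/
def adF (a b : ℤ) : ℤ :=
  Int.rec (fun m => Int.rec (fun n => Int.ofNat (Nat.add m n)) (fun n => sbF m (Nat.succ n)) b)
    (fun m => Int.rec (fun n => sbF n (Nat.succ m))
      (fun n => Int.negSucc (Nat.succ (Nat.add m n))) b) a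

/-- Difference. -/
def dfF (a b : ℤ) : ℤ :=
  Int.rec (fun m => Int.rec (fun n => sbF m n) (fun n => Int.ofNat (Nat.add m (Nat.succ n))) b)
    (fun m => Int.rec (fun n => ngF (Nat.add (Nat.succ m) n))
      (fun n => sbF (Nat.succ n) (Nat.succ m)) b) a

/-- Equality. -/
def eqF (a b : ℤ) : Bool :=
  Int.rec (fun m => Int.rec (fun n => Nat.beq m n) (fun _ => false) b)
    (fun m => Int.rec (fun _ => false) (fun n => Nat.beq m n) b) a

theorem ngF_eq (k : ℕ) : ngF k = -(k : ℤ) := by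
  cases k with
  | zero => rfl
  | succ j => rfl

theorem sbF_eq (m n : ℕ) : sbF m n = (m : ℤ) - n := by
  unfold sbF
  cases h : Nat.ble n m with
  | true =>
    have h1 : n ≤ m := Nat.le_of_ble_eq_true h
    show Int.ofNat (m - n) = _
    rw [Int.ofNat_eq_natCast]
    omega
  | false =>
    have h1 : ¬ n ≤ m := Nat.not_le_of_not_ble_eq_true (by simp [h])
    show ngF (n - m) = _
    rw [ngF_eq]
    omega

theorem mlF_eq (a b : ℤ) : mlF a b = a * b := by
  cases a with
  | ofNat m =>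
    cases b with
    | ofNat n => rfl
    | negSucc n =>
      show ngF (m * (n + 1)) = _
      rw [ngF_eq, Int.ofNat_eq_natCast, Int.negSucc_eq]
      push_cast
      ring
  | negSucc m =>
    cases b with
    | ofNat n =>
      show ngF ((m + 1) * n) = _
      rw [ngF_eq, Int.ofNat_eq_natCast, Int.negSucc_eq]
      push_cast
      ring
    | negSucc n => rfl

theorem adF_eq (a b : ℤ) : adF a b = a + b := by
  cases a with
  | ofNat m =>
    cases b with
    | ofNat n => rfl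
    | negSucc n =>
      show sbF m (n + 1) = _
      rw [sbF_eq, Int.ofNat_eq_natCast, Int.negSucc_eq]
      push_cast
      ring
  | negSucc m =>
    cases b with
    | ofNat n =>
      show sbF n (m + 1) = _
      rw [sbF_eq, Int.ofNat_eq_natCast, Int.negSucc_eq]
      push_cast
      ring
    | negSucc n => rfl

theorem dfF_eq (a b : ℤ) : dfF a b = a - b := by
  cases a with
  | ofNat m =>
    cases b with
    | ofNat n =>
      show sbF m n = _
      rw [sbF_eq]
      rfl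
    | negSucc n =>
      show Int.ofNat (m + (n + 1)) = _
      rw [Int.ofNat_eq_natCast, Int.ofNat_eq_natCast, Int.negSucc_eq]
      push_cast
      ring
  | negSucc m =>
    cases b with
    | ofNat n =>
      show ngF (m + 1 + n) = _
      rw [ngF_eq, Int.ofNat_eq_natCast, Int.negSucc_eq]
      push_cast
      ring
    | negSucc n =>
      show sbF (n + 1) (m + 1) = _
      rw [sbF_eq, Int.negSucc_eq, Int.negSucc_eq]
      push_cast
      ring

theorem eqF_eq (a b : ℤ) : eqF a b = (a == b) := by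
  cases a with
  | ofNat m =>
    cases b with
    | ofNat n =>
      show Nat.beq m n = _
      rw [Bool.eq_iff_iff, Nat.beq_eq, beq_iff_eq, Int.ofNat.injEq]
    | negSucc n => simp [eqF]
  | negSucc m =>
    cases b with
    | ofNat n => simp [eqF]
    | negSucc n =>
      show Nat.beq m n = _
      rw [Bool.eq_iff_iff, Nat.beq_eq, beq_iff_eq, Int.negSucc_inj]

/-! ### Keys -/

def djF (p a : ℕ) : ℕ := Nat.land (Nat.shiftRight p (Nat.mul 4 a)) 15

def rjF (v p a : ℕ) : ℕ := Bool.rec a (djF p a) (Nat.ble (Nat.succ a) v)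

def nmF (a b : ℕ) : ℕ :=
  Bool.rec (Nat.add (Nat.mul 16 b) a) (Nat.add (Nat.mul 16 a) b) (Nat.ble a b)

def rlF (v p c : ℕ) : ℕ := nmF (rjF v p (Nat.div c 16)) (rjF v p (Nat.mod c 16))

def insF (c : ℕ) (l : List ℕ) : List ℕ :=
  List.rec [c] (fun d t ih => Bool.rec (d :: ih) (c :: d :: t) (Nat.ble c d)) l

def srtF (v p : ℕ) (l : List ℕ) : List ℕ := List.rec [] (fun c _ ih => insF (rlF v p c) ih) l

def encF (l : List ℕ) : ℕ := List.rec 0 (fun c _ ih => Nat.add c (Nat.mul 256 ih)) l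

def key0F (v p : ℕ) (H : List ℕ) : ℕ := Nat.add v (Nat.mul 64 (encF (srtF v p H)))

def mskF (p v : ℕ) : ℕ := Nat.rec 0 (fun a ih => Nat.lor (Nat.shiftLeft 1 (djF p a)) ih) v

def okpF (v p : ℕ) : Bool := Nat.beq (mskF p v) (Nat.sub (Nat.shiftLeft 1 v) 1)

def keyF (v p : ℕ) (H : List ℕ) : ℕ := Bool.rec (key0F v idp H) (key0F v p H) (okpF v p)

theorem djF_eq (p a : ℕ) : djF p a = dj p a := by
  unfold dj
  show (p >>> (4 * a)) &&& 15 = _
  rw [Nat.shiftRight_eq_div_pow, show (15 : ℕ) = 2 ^ 4 - 1 from rfl,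
    Nat.and_two_pow_sub_one_eq_mod, pow_mul]
  norm_num

theorem rjF_eq (v p a : ℕ) : rjF v p a = rj v p a := by
  unfold rjF rj
  cases h : Nat.ble (Nat.succ a) v with
  | true =>
    have h1 : a + 1 ≤ v := Nat.le_of_ble_eq_true h
    rw [if_pos (by omega)]
    exact djF_eq p a
  | false =>
    have h1 : ¬ a + 1 ≤ v := Nat.not_le_of_not_ble_eq_true (by simp [h])
    rw [if_neg (by omega)]

theorem nmF_eq (a b : ℕ) : nmF a b = nm a b := by
  unfold nmF nm
  cases h : Nat.ble a b with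
  | true =>
    rw [if_pos (Nat.le_of_ble_eq_true h)]
    rfl
  | false =>
    rw [if_neg (Nat.not_le_of_not_ble_eq_true (by simp [h]))]
    rfl

theorem rlF_eq (v p c : ℕ) : rlF v p c = rl v p c := by
  unfold rlF rl
  rw [nmF_eq, rjF_eq, rjF_eq]
  rfl

theorem insF_eq (c : ℕ) : ∀ l : List ℕ, insF c l = ins c l
  | [] => rfl
  | d :: t => by
    show (Bool.rec (d :: insF c t) (c :: d :: t) (Nat.ble c d) : List ℕ) = _
    rw [insF_eq c t, ins]
    cases h : Nat.ble c d with
    | true => rw [if_pos (Nat.le_of_ble_eq_true h)]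
    | false => rw [if_neg (Nat.not_le_of_not_ble_eq_true (by simp [h]))]

theorem srtF_eq (v p : ℕ) : ∀ l : List ℕ, srtF v p l = srt (l.map (rl v p))
  | [] => rfl
  | c :: t => by
    show insF (rlF v p c) (srtF v p t) = _
    rw [insF_eq, rlF_eq, srtF_eq v p t]
    rfl

theorem encF_eq : ∀ l : List ℕ, encF l = enc l
  | [] => rfl
  | c :: t => by
    show c + 256 * encF t = _
    rw [encF_eq t]
    rfl

theorem key0F_eq (v p : ℕ) (H : List ℕ) : key0F v p H = key0 v p H := by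
  show v + 64 * encF (srtF v p H) = _
  rw [encF_eq, srtF_eq]
  rfl

theorem mskF_eq (p : ℕ) : ∀ v : ℕ, mskF p v = msk p v
  | 0 => rfl
  | v + 1 => by
    show (1 <<< djF p v) ||| mskF p v = _
    rw [mskF_eq p v, djF_eq, msk, Nat.shiftLeft_eq, one_mul]

theorem okpF_eq (v p : ℕ) : okpF v p = okp v p := by
  show Nat.beq (mskF p v) ((1 <<< v) - 1) = _
  rw [mskF_eq, Nat.shiftLeft_eq, one_mul]
  rfl

theorem keyF_eq (v p : ℕ) (H : List ℕ) : keyF v p H = key v p H := by
  unfold keyF key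
  rw [okpF_eq, key0F_eq, key0F_eq]
  cases okp v p <;> rfl

/-! ### Expansions -/

def rgF (s k : ℕ) : List ℕ := Nat.rec (fun _ => []) (fun _ ih s => s :: ih (Nat.succ s)) k s

theorem rgF_eq : ∀ (k s : ℕ), rgF s k = rg s k
  | 0, _ => rfl
  | k + 1, s => by
    show s :: rgF (s + 1) k = _
    rw [rgF_eq k (s + 1)]
    rfl

/-- The pairs of labels, followed by `r`. -/
def prF (s k : ℕ) (g : ℕ → ℕ → ℕ × ℕ × ℕ) (r : List (ℕ × ℕ × ℕ)) : List (ℕ × ℕ × ℕ) :=
  Nat.rec (fun _ => r) (fun k ih s =>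
    List.rec (ih (Nat.succ s)) (fun j _ t => g s j :: t) (rgF (Nat.succ s) k)) k s

theorem prF_eq (g : ℕ → ℕ → ℕ × ℕ × ℕ) (r : List (ℕ × ℕ × ℕ)) : ∀ (k s : ℕ),
    prF s k g r = (prs s k).map (fun j => g j.1 j.2) ++ r
  | 0, _ => rfl
  | k + 1, s => by
    have h : ∀ (xs : List ℕ) (t : List (ℕ × ℕ × ℕ)),
        (List.rec t (fun j _ t => g s j :: t) xs : List (ℕ × ℕ × ℕ))
          = xs.map (fun j => g s j) ++ t := by
      intro xs t
      induction xs with
      | nil => rfl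
      | cons x xs ih => rw [List.map_cons, List.cons_append, ← ih]
    show (List.rec (prF (s + 1) k g r) (fun j _ t => g s j :: t) (rgF (s + 1) k) :
      List (ℕ × ℕ × ℕ)) = _
    rw [h, prF_eq g r k (s + 1), prs, List.map_append, List.map_map, List.append_assoc, rgF_eq]
    rfl

/-- One flag relative to the first `v0` of `v` vertices. -/
def ex1F (v0 v : ℕ) (f : Fl) : List (ℕ × ℕ × ℕ) :=
  Fl.rec (fun a b => [(1, 0, Nat.add (Nat.mul 16 a) b)])
    (fun a => List.rec [(1, 1, Nat.add (Nat.mul 16 a) v)]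
      (fun j _ ih => Bool.rec ((1, 0, Nat.add (Nat.mul 16 a) j) :: ih) ih (Nat.beq j a))
      (rgF v0 (Nat.sub v v0)))
    (prF v0 (Nat.sub v v0) (fun i j => (2, 0, Nat.add (Nat.mul 16 i) j))
      (List.rec [(1, 2, Nat.add (Nat.mul 16 v) (Nat.succ v))]
        (fun j _ ih => (2, 1, Nat.add (Nat.mul 16 j) v) :: ih) (rgF v0 (Nat.sub v v0)))) f

theorem ex1F_eq (v0 v : ℕ) (f : Fl) : ex1F v0 v f = ex1 v0 v f := by
  cases f with
  | inn a b => rfl
  | out a =>
    have h : ∀ xs : List ℕ, (List.rec [(1, 1, 16 * a + v)]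
        (fun j _ ih => Bool.rec ((1, 0, 16 * a + j) :: ih) ih (Nat.beq j a)) xs :
          List (ℕ × ℕ × ℕ))
          = (xs.filter (fun j => !(Nat.beq j a))).map (fun j => (1, 0, 16 * a + j))
            ++ [(1, 1, 16 * a + v)] := by
      intro xs
      induction xs with
      | nil => rfl
      | cons x xs ih =>
        rw [List.filter_cons]
        cases hb : Nat.beq x a with
        | true => simpa [hb] using ih
        | false => simpa [hb] using ih
    show (List.rec [(1, 1, 16 * a + v)]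
      (fun j _ ih => Bool.rec ((1, 0, 16 * a + j) :: ih) ih (Nat.beq j a)) (rgF v0 (v - v0)) :
          List (ℕ × ℕ × ℕ)) = _
    rw [h, rgF_eq]
    rfl
  | oo =>
    have h : ∀ xs : List ℕ, (List.rec [(1, 2, 16 * v + (v + 1))]
        (fun j _ ih => (2, 1, 16 * j + v) :: ih) xs : List (ℕ × ℕ × ℕ))
          = xs.map (fun j => (2, 1, 16 * j + v)) ++ [(1, 2, 16 * v + (v + 1))] := by
      intro xs
      induction xs with
      | nil => rfl
      | cons x xs ih => rw [List.map_cons, List.cons_append, ← ih]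
    show prF v0 (v - v0) (fun i j => (2, 0, 16 * i + j))
      (List.rec [(1, 2, 16 * v + (v + 1))]
        (fun j _ ih => (2, 1, 16 * j + v) :: ih) (rgF v0 (v - v0))) = _
    rw [prF_eq, h, rgF_eq, ex1, List.append_assoc]

/-- A product of flags, followed by `r`. -/
def exLF (fs : List (ℕ × Fl)) (v : ℕ) (H : List ℕ) (c : ℕ) (r : List (ℕ × ℕ × List ℕ)) :
    List (ℕ × ℕ × List ℕ) :=
  List.rec (fun v H c r => (c, v, H) :: r)
    (fun f _ ih v H c r => List.rec r
      (fun t _ s => ih (Nat.add v t.2.1) (t.2.2 :: H) (Nat.mul c t.1) s) (ex1F f.1 v f.2))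
    fs v H c r

theorem exLF_eq : ∀ (fs : List (ℕ × Fl)) (v : ℕ) (H : List ℕ) (c : ℕ)
    (r : List (ℕ × ℕ × List ℕ)), exLF fs v H c r = exL v H c fs ++ r
  | [], _, _, _, _ => rfl
  | f :: fs, v, H, c, r => by
    have h : ∀ xs : List (ℕ × ℕ × ℕ), (List.rec r
        (fun t _ s => exLF fs (v + t.2.1) (t.2.2 :: H) (c * t.1) s) xs :
          List (ℕ × ℕ × List ℕ))
          = (xs.flatMap fun t => exL (v + t.2.1) (t.2.2 :: H) (c * t.1) fs) ++ r := by
      intro xs
      induction xs with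
      | nil => rfl
      | cons x xs ih =>
        rw [List.flatMap_cons, List.append_assoc, ← ih]
        exact exLF_eq fs (v + x.2.1) (x.2.2 :: H) (c * x.1) _
    show (List.rec r (fun t _ s => exLF fs (v + t.2.1) (t.2.2 :: H) (c * t.1) s)
      (ex1F f.1 v f.2) : List (ℕ × ℕ × List ℕ)) = _
    rw [h, ex1F_eq]
    rfl

/-! ### Lists of terms -/

def cnsF (k : ℕ) (c : ℤ) (r : List (ℕ × ℤ)) : List (ℕ × ℤ) :=
  Nat.rec ((0, c) :: r) (fun k _ => (Nat.succ k, c) :: r) k

theorem cnsF_eq (k : ℕ) (c : ℤ) (r : List (ℕ × ℤ)) : cnsF k c r = (k, c) :: r := by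
  cases k <;> rfl

theorem cns_eq (k : ℕ) (c : ℤ) (r : List (ℕ × ℤ)) : cns k c r = (k, c) :: r := by
  cases k <;> rfl

/-- Terms with a common factor, the rest is computed from the remaining permutations. -/
def tmsF (q : ℤ) (ts : List (ℕ × ℕ × List ℕ)) (g : ℕ → List (ℕ × ℤ)) (P : ℕ) :
    List (ℕ × ℤ) :=
  List.rec g (fun t _ ih P => cnsF (keyF t.2.1 (Nat.land P 0xffffffffffffffff) t.2.2)
    (mlF q (Int.ofNat t.1)) (ih (Nat.shiftRight P 64))) ts P

theorem tmsF_eq (q : ℤ) (g : ℕ → List (ℕ × ℤ)) : ∀ (ts : List (ℕ × ℕ × List ℕ)) (P : ℕ),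
    tmsF q ts g P = tms q ts P ++ g (P / 2 ^ (64 * ts.length))
  | [], P => by
    show g P = [] ++ g (P / 2 ^ (64 * 0))
    simp
  | t :: ts, P => by
    show cnsF (keyF t.2.1 (P &&& 0xffffffffffffffff) t.2.2) (mlF q (Int.ofNat t.1))
      (tmsF q ts g (P >>> 64)) = _
    have h1 : P &&& 0xffffffffffffffff = P % 2 ^ 64 := by
      rw [show (0xffffffffffffffff : ℕ) = 2 ^ 64 - 1 by norm_num,
        Nat.and_two_pow_sub_one_eq_mod]
    rw [tmsF_eq q g ts, cnsF_eq, keyF_eq, mlF_eq, tms, cns_eq, h1, Nat.shiftRight_eq_div_pow,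
      Nat.div_div_eq_div_mul, ← pow_add, List.length_cons,
      show 64 + 64 * ts.length = 64 * (ts.length + 1) by ring, List.cons_append,
      Int.ofNat_eq_natCast]

/-- The terms of a list of items. -/
def blkF (is : List (ℤ × List (ℕ × ℕ × List ℕ))) (P : ℕ) : List (ℕ × ℤ) :=
  List.rec (fun _ => []) (fun i _ ih P => tmsF i.1 i.2 ih P) is P

theorem blkF_eq : ∀ (is : List (ℤ × List (ℕ × ℕ × List ℕ))) (P : ℕ), blkF is P = blk is P
  | [], _ => rfl
  | i :: is, P => by
    show tmsF i.1 i.2 (blkF is) P = _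
    rw [tmsF_eq, blkF_eq is, blk]

def appF (xs ys : List (ℕ × ℤ)) : List (ℕ × ℤ) := List.rec ys (fun x _ ih => x :: ih) xs

theorem appF_eq : ∀ xs ys : List (ℕ × ℤ), appF xs ys = xs ++ ys
  | [], _ => rfl
  | x :: xs, ys => by
    show x :: appF xs ys = _
    rw [appF_eq xs ys]
    rfl

/-- Merge of two lists of terms. -/
def mrgF (n : ℕ) (xs ys : List (ℕ × ℤ)) : List (ℕ × ℤ) :=
  Nat.rec appF (fun _ ih xs ys =>
    List.rec ys (fun x xs' _ => List.rec (x :: xs') (fun y ys' _ =>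
      Bool.rec
        (Bool.rec ((x.1, adF x.2 y.2) :: ih xs' ys') (y :: ih (x :: xs') ys')
          (Nat.ble (Nat.succ y.1) x.1))
        (x :: ih xs' (y :: ys')) (Nat.ble (Nat.succ x.1) y.1)) ys) xs) n xs ys

theorem mrgF_eq : ∀ (n : ℕ) (xs ys : List (ℕ × ℤ)), mrgF n xs ys = mrg n xs ys
  | 0, xs, ys => by
    show appF xs ys = _
    rw [appF_eq]
    rfl
  | _ + 1, [], _ => rfl
  | _ + 1, _ :: _, [] => rfl
  | n + 1, x :: xs, y :: ys => by
    show (Bool.rec
        (Bool.rec ((x.1, adF x.2 y.2) :: mrgF n xs ys) (y :: mrgF n (x :: xs) ys)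
          (Nat.ble (y.1 + 1) x.1))
        (x :: mrgF n xs (y :: ys)) (Nat.ble (x.1 + 1) y.1) : List (ℕ × ℤ)) = _
    rw [mrgF_eq n xs ys, mrgF_eq n (x :: xs) ys, mrgF_eq n xs (y :: ys), adF_eq, mrg]
    cases h : Nat.ble (x.1 + 1) y.1 with
    | true =>
      have h1 : x.1 + 1 ≤ y.1 := Nat.le_of_ble_eq_true h
      rw [if_pos (by omega)]
    | false =>
      have h1 : ¬ x.1 + 1 ≤ y.1 := Nat.not_le_of_not_ble_eq_true (by simp [h])
      rw [if_neg (by omega)]
      cases h' : Nat.ble (y.1 + 1) x.1 with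
      | true =>
        have h2 : y.1 + 1 ≤ x.1 := Nat.le_of_ble_eq_true h'
        rw [if_pos (by omega)]
      | false =>
        have h2 : ¬ y.1 + 1 ≤ x.1 := Nat.not_le_of_not_ble_eq_true (by simp [h'])
        rw [if_neg (by omega)]

/-- The terms at even and at odd positions. -/
def splF (l : List (ℕ × ℤ)) : List (ℕ × ℤ) × List (ℕ × ℤ) :=
  List.rec ([], []) (fun x _ ih => (x :: ih.2, ih.1)) l

theorem splF_eq : ∀ l : List (ℕ × ℤ), splF l = spl l
  | [] => rfl
  | x :: xs => by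
    show (x :: (splF xs).2, (splF xs).1) = _
    rw [splF_eq xs]
    rfl

/-- Merge sort, collecting equal keys. -/
def msrF (n : ℕ) (xs : List (ℕ × ℤ)) : List (ℕ × ℤ) :=
  Nat.rec (fun xs => xs) (fun _ ih xs =>
    List.rec [] (fun x xs' _ => List.rec [x] (fun y ys _ =>
      mrgF 100000 (ih (splF (x :: y :: ys)).1) (ih (splF (x :: y :: ys)).2)) xs') xs) n xs

theorem msrF_eq : ∀ (n : ℕ) (xs : List (ℕ × ℤ)), msrF n xs = msr n xs
  | 0, _ => rfl
  | _ + 1, [] => rfl
  | _ + 1, [_] => rfl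
  | n + 1, x :: y :: xs => by
    show mrgF 100000 (msrF n (splF (x :: y :: xs)).1) (msrF n (splF (x :: y :: xs)).2) = _
    rw [mrgF_eq, msrF_eq n, msrF_eq n, splF_eq, msr]

end

end Pool.Agent.Lib.MP_009d13_co.FL
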