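import Pool.Agent.Lib.MP_009d13_co.FL.Fsa

/-!
# The checker written with recursors: elimination, types, levels, soundness
-/

set_option autoImplicit false

namespace Pool.Agent.Lib.MP_009d13_co.FL

open Finset Classical
open Pool.Agent.Lib.MP_009d13_co.OD (NL mem_NL Wt un ms dg Fo)
open Pool.Agent.Lib.MP_009d13_co.SP (TS pt vs e1 fF BAD Cert)

noncomputable section

/-! ### Elimination -/

/-- Quotient. -/
def dvF (a q : ℤ) : ℤ :=
  Int.rec (fun m => Int.rec (fun n => Int.ofNat (Nat.div m n))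
      (fun n => ngF (Nat.div m (Nat.succ n))) q)
    (fun m => Int.rec (fun n => Nat.rec (Int.ofNat 0)
        (fun k _ => Int.negSucc (Nat.div m (Nat.succ k))) n)
      (fun n => Int.ofNat (Nat.succ (Nat.div m (Nat.succ n)))) q) a

theorem dvF_eq (a q : ℤ) : dvF a q = a / q := by
  cases a with
  | ofNat m =>
    cases q with
    | ofNat n => rfl
    | negSucc n =>
      show ngF (m / (n + 1)) = _
      rw [ngF_eq]
      rfl
  | negSucc m =>
    cases q with
    | ofNat n => cases n <;> rfl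
    | negSucc n => rfl

def andF (a b : Bool) : Bool := Bool.rec false b a

theorem andF_eq (a b : Bool) : andF a b = (a && b) := by cases a <;> rfl

def stpF (p q t : ℤ) (xs ys : List ℤ) : List ℤ :=
  List.rec (fun _ => []) (fun x _ ih ys => List.rec []
    (fun y ys' _ => dvF (dfF (mlF p x) (mlF t y)) q :: ih ys') ys) xs ys

def exaF (p q t : ℤ) (xs ys : List ℤ) : Bool :=
  List.rec (fun _ => true) (fun x _ ih ys => List.rec true
    (fun y ys' _ => andF (eqF (mlF q (dvF (dfF (mlF p x) (mlF t y)) q))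
      (dfF (mlF p x) (mlF t y))) (ih ys')) ys) xs ys

def schF (p q : ℤ) (ts : List ℤ) (rs : List (List ℤ)) : List (List ℤ) :=
  List.rec (fun _ => []) (fun t ts' ih rs => List.rec []
    (fun r rs' _ => stpF p q t r (t :: ts') :: ih rs') rs) ts rs

def exsF (p q : ℤ) (ts : List ℤ) (rs : List (List ℤ)) : Bool :=
  List.rec (fun _ => true) (fun t ts' ih rs => List.rec true
    (fun r rs' _ => andF (exaF p q t r (t :: ts')) (ih rs')) rs) ts rs

def zerF (l : List ℤ) : Bool := List.rec true (fun x _ ih => andF (eqF x (Int.ofNat 0)) ih) l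

/-- Positive. -/
def psF (a : ℤ) : Bool := Int.rec (fun m => Nat.ble 1 m) (fun _ => false) a

/-- Nonnegative. -/
def nnF (a : ℤ) : Bool := Int.rec (fun _ => true) (fun _ => false) a

def psdF (n : ℕ) (q : ℤ) (M : List (List ℤ)) : Bool :=
  Nat.rec (fun _ _ => true) (fun _ ih q M => List.rec true (fun r rs _ => List.rec true
    (fun p ts _ => Bool.rec (andF (andF (psF p) (exsF p q ts rs)) (ih p (schF p q ts rs)))
      (andF (zerF ts) (ih q rs)) (eqF p (Int.ofNat 0))) r) M) n q M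

theorem stpF_eq (p q t : ℤ) : ∀ xs ys : List ℤ, stpF p q t xs ys = stp p q t xs ys
  | [], _ => by simp [stpF, stp]
  | _ :: _, [] => by simp [stpF, stp]
  | x :: xs, y :: ys => by
    show dvF (dfF (mlF p x) (mlF t y)) q :: stpF p q t xs ys = _
    rw [stpF_eq p q t xs ys, dvF_eq, dfF_eq, mlF_eq, mlF_eq, stp]

theorem exaF_eq (p q t : ℤ) : ∀ xs ys : List ℤ, exaF p q t xs ys = exa p q t xs ys
  | [], _ => by simp [exaF, exa]
  | _ :: _, [] => by simp [exaF, exa]
  | x :: xs, y :: ys => by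
    show andF (eqF (mlF q (dvF (dfF (mlF p x) (mlF t y)) q))
      (dfF (mlF p x) (mlF t y))) (exaF p q t xs ys) = _
    rw [exaF_eq p q t xs ys, andF_eq, eqF_eq, mlF_eq, dvF_eq, dfF_eq, mlF_eq, mlF_eq, exa]

theorem schF_eq (p q : ℤ) : ∀ (ts : List ℤ) (rs : List (List ℤ)),
    schF p q ts rs = sch p q ts rs
  | [], _ => by simp [schF, sch]
  | _ :: _, [] => by simp [schF, sch]
  | t :: ts, r :: rs => by
    show stpF p q t r (t :: ts) :: schF p q ts rs = _
    rw [schF_eq p q ts rs, stpF_eq, sch]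

theorem exsF_eq (p q : ℤ) : ∀ (ts : List ℤ) (rs : List (List ℤ)),
    exsF p q ts rs = exs p q ts rs
  | [], _ => by simp [exsF, exs]
  | _ :: _, [] => by simp [exsF, exs]
  | t :: ts, r :: rs => by
    show andF (exaF p q t r (t :: ts)) (exsF p q ts rs) = _
    rw [exsF_eq p q ts rs, exaF_eq, andF_eq, exs]

theorem zerF_eq : ∀ l : List ℤ, zerF l = zer l
  | [] => rfl
  | x :: xs => by
    show andF (eqF x (Int.ofNat 0)) (zerF xs) = _
    rw [zerF_eq xs, andF_eq, eqF_eq, zer]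
    rfl

theorem psF_eq (a : ℤ) : psF a = decide (0 < a) := by
  cases a with
  | ofNat m =>
    show Nat.ble 1 m = _
    rw [Bool.eq_iff_iff, Nat.ble_eq, decide_eq_true_iff, Int.ofNat_eq_natCast]
    omega
  | negSucc m => rfl

theorem nnF_eq (a : ℤ) : nnF a = decide (0 ≤ a) := by
  cases a <;> rfl

theorem psdF_eq : ∀ (n : ℕ) (q : ℤ) (M : List (List ℤ)), psdF n q M = psd n q M
  | 0, _, _ => rfl
  | _ + 1, _, [] => rfl
  | _ + 1, _, [] :: _ => rfl
  | n + 1, q, (p :: ts) :: rs => by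
    show (Bool.rec (andF (andF (psF p) (exsF p q ts rs)) (psdF n p (schF p q ts rs)))
      (andF (zerF ts) (psdF n q rs)) (eqF p (Int.ofNat 0)) : Bool) = _
    rw [psdF_eq n p, psdF_eq n q rs, andF_eq, andF_eq, andF_eq, psF_eq, exsF_eq, schF_eq,
      zerF_eq, eqF_eq, psd]
    cases h : (p == 0) with
    | true =>
      simp
    | false =>
      simp

/-! ### Unpacking -/

def unrF (B h k M : ℕ) : List ℤ :=
  Nat.rec (fun _ => []) (fun _ ih M => sbF (Nat.mod M B) h :: ih (Nat.div M B)) k M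

def unmF (w B h k M : ℕ) : List (List ℤ) :=
  Nat.rec (fun _ => []) (fun k ih M =>
    unrF B h (Nat.succ k) M :: ih (Nat.shiftRight M (Nat.mul w (Nat.succ k)))) k M

/-- List of terms from packed keys and coefficients. -/
def untF (kw B h n K C : ℕ) : List (ℕ × ℤ) :=
  Nat.rec (fun _ _ => []) (fun _ ih K C => cnsF (Nat.mod K (Nat.shiftLeft 1 kw))
    (sbF (Nat.mod C B) h) (ih (Nat.shiftRight K kw) (Nat.div C B))) n K C

def eqtF (xs ys : List (ℕ × ℤ)) : Bool :=
  List.rec (fun ys => List.rec true (fun _ _ _ => false) ys)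
    (fun x _ ih ys => List.rec false (fun y ys' _ =>
      andF (andF (Nat.beq x.1 y.1) (eqF x.2 y.2)) (ih ys')) ys) xs ys

theorem eqtF_sound : ∀ xs ys : List (ℕ × ℤ), eqtF xs ys = true → xs = ys
  | [], [], _ => rfl
  | [], _ :: _, h => by simp [eqtF] at h
  | _ :: _, [], h => by simp [eqtF] at h
  | x :: xs, y :: ys, h => by
    have h' : andF (andF (Nat.beq x.1 y.1) (eqF x.2 y.2)) (eqtF xs ys) = true := h
    rw [andF_eq, andF_eq, eqF_eq, Bool.and_eq_true, Bool.and_eq_true] at h'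
    obtain ⟨⟨h1, h2⟩, h3⟩ := h'
    rw [eqtF_sound xs ys h3]
    have h4 : x = y := Prod.ext (Nat.eq_of_beq_eq_true h1) (eq_of_beq h2)
    rw [h4]

/-! ### Types -/

def qrwF (m : ℤ) (v : ℕ) (T : List ℕ) (x : Fl) (ys : List Fl) (qs : List ℤ)
    (r : List (ℤ × List (ℕ × ℕ × List ℕ))) : List (ℤ × List (ℕ × ℕ × List ℕ)) :=
  List.rec (fun _ => r) (fun y _ ih qs => List.rec r (fun q qs' _ =>
    Bool.rec ((mlF m (mlF 2 q), exLF [(v, x), (v, y)] v T 1 []) :: ih qs') (ih qs')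
      (eqF q (Int.ofNat 0))) qs) ys qs

theorem qrwF_eq (m : ℤ) (v : ℕ) (T : List ℕ) (x : Fl)
    (r : List (ℤ × List (ℕ × ℕ × List ℕ))) : ∀ (ys : List Fl) (qs : List ℤ),
    qrwF m v T x ys qs r = scl m (qrw v T x ys qs) ++ r
  | [], _ => by simp [qrwF, qrw, scl]
  | _ :: _, [] => by simp [qrwF, qrw, scl]
  | y :: ys, q :: qs => by
    show (Bool.rec ((mlF m (mlF 2 q), exLF [(v, x), (v, y)] v T 1 []) ::
      qrwF m v T x ys qs r) (qrwF m v T x ys qs r) (eqF q (Int.ofNat 0)) :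
        List (ℤ × List (ℕ × ℕ × List ℕ))) = _
    rw [qrwF_eq m v T x r ys qs, eqF_eq, exLF_eq, mlF_eq, mlF_eq, qrw]
    cases h : (q == 0) with
    | true =>
      simp
    | false =>
      simp [scl]

def qitF (m : ℤ) (v : ℕ) (T : List ℕ) (xs : List Fl) (M : List (List ℤ)) :
    List (ℤ × List (ℕ × ℕ × List ℕ)) :=
  List.rec (fun _ => []) (fun x xs' ih M => List.rec [] (fun r rs _ => List.rec (ih rs)
    (fun q qs _ => (mlF m q, exLF [(v, x), (v, x)] v T 1 []) ::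
      qrwF m v T x xs' qs (ih rs)) r) M) xs M

theorem scl_append (m : ℤ) : ∀ xs ys : List (ℤ × List (ℕ × ℕ × List ℕ)),
    scl m (xs ++ ys) = scl m xs ++ scl m ys
  | [], _ => rfl
  | x :: xs, ys => by rw [List.cons_append, scl, scl, scl_append m xs ys]; rfl

theorem qitF_eq (m : ℤ) (v : ℕ) (T : List ℕ) : ∀ (xs : List Fl) (M : List (List ℤ)),
    qitF m v T xs M = scl m (qit v T xs M)
  | [], _ => by simp [qitF, qit, scl]
  | _ :: _, [] => by simp [qitF, qit, scl]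
  | x :: xs, [] :: rs => by
    show qitF m v T xs rs = _
    rw [qitF_eq m v T xs rs, qit]
  | x :: xs, (q :: qs) :: rs => by
    show (mlF m q, exLF [(v, x), (v, x)] v T 1 []) ::
      qrwF m v T x xs qs (qitF m v T xs rs) = _
    rw [qitF_eq m v T xs rs, qrwF_eq, exLF_eq, mlF_eq, qit, scl, scl_append,
      List.append_nil]

def flF (v : ℕ) : List Fl :=
  Nat.rec (fun _ => List.rec [Fl.oo] (fun j _ ih => Fl.out j :: ih) (rgF 0 v))
    (fun k ih s => List.rec (ih (Nat.succ s)) (fun j _ t => Fl.inn s j :: t)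
      (rgF (Nat.succ s) k)) v 0

theorem flF_eq (v : ℕ) : flF v = fl v := by
  have h1 : ∀ xs : List ℕ, (List.rec [Fl.oo] (fun j _ ih => Fl.out j :: ih) xs : List Fl)
      = xs.map Fl.out ++ [Fl.oo] := by
    intro xs
    induction xs with
    | nil => rfl
    | cons x xs ih => rw [List.map_cons, List.cons_append, ← ih]
  have h2 : ∀ (s : ℕ) (xs : List ℕ) (t : List Fl),
      (List.rec t (fun j _ t => Fl.inn s j :: t) xs : List Fl)
        = xs.map (fun j => Fl.inn s j) ++ t := by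
    intro s xs t
    induction xs with
    | nil => rfl
    | cons x xs ih => rw [List.map_cons, List.cons_append, ← ih]
  have h3 : ∀ (k s : ℕ), (Nat.rec (fun _ => List.rec [Fl.oo] (fun j _ ih => Fl.out j :: ih)
      (rgF 0 v)) (fun k ih s => List.rec (ih (Nat.succ s)) (fun j _ t => Fl.inn s j :: t)
      (rgF (Nat.succ s) k)) k : ℕ → List Fl) s
      = (prs s k).map (fun p => Fl.inn p.1 p.2) ++ ((rg 0 v).map Fl.out ++ [Fl.oo]) := by
    intro k
    induction k with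
    | zero =>
      intro s
      show (List.rec [Fl.oo] (fun j _ ih => Fl.out j :: ih) (rgF 0 v) : List Fl) = _
      rw [h1, rgF_eq]
      rfl
    | succ k ih =>
      intro s
      show (List.rec ((Nat.rec (fun _ => List.rec [Fl.oo] (fun j _ ih => Fl.out j :: ih)
        (rgF 0 v)) (fun k ih s => List.rec (ih (Nat.succ s)) (fun j _ t => Fl.inn s j :: t)
        (rgF (Nat.succ s) k)) k : ℕ → List Fl) (s + 1)) (fun j _ t => Fl.inn s j :: t)
        (rgF (s + 1) k) : List Fl) = _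
      rw [ih (s + 1), h2, rgF_eq, prs, List.map_append, List.map_map, List.append_assoc]
      rfl
  rw [fl, List.append_assoc, ← h3]
  rfl

def okhF (v : ℕ) (H : List ℕ) : Bool :=
  List.rec true (fun c _ ih => andF (andF (Nat.ble (Nat.succ (Nat.div c 16)) v)
    (Nat.ble (Nat.succ (Nat.mod c 16)) v)) ih) H

theorem ble_succ (a v : ℕ) : Nat.ble (Nat.succ a) v = decide (a < v) := by
  rw [Bool.eq_iff_iff, Nat.ble_eq, decide_eq_true_iff]
  exact Iff.rfl

theorem okhF_eq (v : ℕ) : ∀ H : List ℕ, okhF v H = okh v H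
  | [] => rfl
  | c :: t => by
    show andF (andF (Nat.ble (Nat.succ (c / 16)) v) (Nat.ble (Nat.succ (c % 16)) v))
      (okhF v t) = _
    rw [okhF_eq v t, andF_eq, andF_eq, ble_succ, ble_succ, okh]

def lenF {α : Type} (l : List α) : ℕ := List.rec 0 (fun _ _ ih => Nat.succ ih) l

theorem lenF_eq {α : Type} : ∀ l : List α, lenF l = l.length
  | [] => rfl
  | _ :: t => by
    show lenF t + 1 = _
    rw [lenF_eq t]
    rfl

def shpF (n : ℕ) (M : List (List ℤ)) : Bool :=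
  Nat.rec (fun M => List.rec true (fun _ _ _ => false) M)
    (fun k ih M => List.rec false (fun r rs _ =>
      andF (Nat.beq (lenF r) (Nat.succ k)) (ih rs)) M) n M

theorem shpF_eq : ∀ (n : ℕ) (M : List (List ℤ)), shpF n M = shp n M
  | 0, [] => rfl
  | 0, _ :: _ => by simp [shpF, shp]
  | n + 1, [] => by simp [shpF, shp]
  | n + 1, r :: rs => by
    show andF (Nat.beq (lenF r) (Nat.succ n)) (shpF n rs) = _
    rw [shpF_eq n rs, lenF_eq, andF_eq, shp]
    congr 1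
    rw [Bool.eq_iff_iff, Nat.beq_eq, beq_iff_eq]

/-- Matrix of a packed type. -/
def matF (w v M : ℕ) : List (List ℤ) :=
  unmF w (Nat.shiftLeft 1 w) (Nat.shiftLeft 1 (Nat.pred w)) (lenF (flF v)) M

/-- A type with a positive semidefinite matrix. -/
def tokF (l v : ℕ) (T : List ℕ) (w M : ℕ) : Bool :=
  andF (Nat.ble (Nat.add v 4) 16) (andF (okhF v T) (andF (Nat.beq (Nat.succ (lenF T)) l)
    (andF (shpF (lenF (flF v)) (matF w v M)) (psdF (lenF (flF v)) 1 (matF w v M)))))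

/-- The terms of a type. -/
def tnfF (m : ℤ) (v : ℕ) (T : List ℕ) (w M P : ℕ) : List (ℕ × ℤ) :=
  msrF 40 (blkF (qitF m v T (flF v) (matF w v M)) P)

/-- The type is fine and the list of its terms is `N`. -/
def tyF (l v : ℕ) (T : List ℕ) (w M P : ℕ) (N : List (ℕ × ℤ)) : Bool :=
  andF (tokF l v T w M) (eqtF (tnfF (-1) v T w M P) N)

theorem tyF_neg {l v : ℕ} {T : List ℕ} {w M P : ℕ} {N : List (ℕ × ℤ)}
    (h : tyF l v T w M P N = true) : Neg (l + 1) N := fun V _ μ hμ => by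
  unfold tyF tokF at h
  simp only [andF_eq, Bool.and_eq_true, okhF_eq, shpF_eq, psdF_eq, lenF_eq, flF_eq] at h
  obtain ⟨⟨h1, h2, h3, h4, h5⟩, h6⟩ := h
  have h1' : v + 4 ≤ 16 := Nat.le_of_ble_eq_true h1
  have h3' : T.length + 1 = l := Nat.eq_of_beq_eq_true h3
  have h7 : gdi (l + 1) (qit v T (fl v) (matF w v M)) := by
    rw [← h3']
    exact qit_gd h2 h1' _ _ (okf_fl v)
  rw [← eqtF_sound _ _ h6]
  unfold tnfF
  rw [msrF_eq, blkF_eq, qitF_eq, flF_eq, ev_msr, ev_blk hμ o1 (l + 1) _ _ (scl_gd _ h7), scl_iv]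
  have h8 := qit_nonneg hμ h2 h1' h4 h5
  push_cast
  linarith

/-! ### Levels -/

def decF (n k : ℕ) : List ℕ :=
  Nat.rec (fun _ => []) (fun _ ih k => Nat.mod k 256 :: ih (Nat.div k 256)) n k

theorem decF_eq : ∀ n k : ℕ, decF n k = dec n k
  | 0, _ => rfl
  | n + 1, k => by
    show k % 256 :: decF n (k / 256) = _
    rw [decF_eq n]
    rfl

def sitF (n : ℕ) (ts : List (ℕ × ℤ)) : List (ℤ × List (ℕ × ℕ × List ℕ)) :=
  List.rec [] (fun t _ ih => (t.2, exLF [(0, Fl.oo)] (Nat.mod t.1 64)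
    (decF n (Nat.div t.1 64)) 1 []) :: ih) ts

theorem sitF_eq (n : ℕ) : ∀ ts : List (ℕ × ℤ), sitF n ts = sit n ts
  | [] => rfl
  | t :: ts => by
    show (t.2, exLF [(0, Fl.oo)] (t.1 % 64) (decF n (t.1 / 64)) 1 []) :: sitF n ts = _
    rw [sitF_eq n ts, exLF_eq, decF_eq, sit, List.append_nil]

def oksF (n : ℕ) (ts : List (ℕ × ℤ)) : Bool :=
  List.rec true (fun t _ ih => andF (andF (Nat.ble (Nat.add (Nat.mod t.1 64) 2) 16)
    (okhF (Nat.mod t.1 64) (decF n (Nat.div t.1 64)))) ih) ts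

theorem oksF_eq (n : ℕ) : ∀ ts : List (ℕ × ℤ), oksF n ts = oks n ts
  | [] => rfl
  | t :: ts => by
    show andF (andF (Nat.ble (t.1 % 64 + 2) 16) (okhF (t.1 % 64) (decF n (t.1 / 64))))
      (oksF n ts) = _
    rw [oksF_eq n ts, andF_eq, andF_eq, okhF_eq, decF_eq, oks]
    congr 2
    rw [Bool.eq_iff_iff, Nat.ble_eq, decide_eq_true_iff]

/-- The list of the terms with `n` edges is correct. -/
def Lev (n : ℕ) (ts : List (ℕ × ℤ)) : Prop :=
  ∀ (V : Type) [Fintype V] (μ : V → V → ℝ), Wt μ → ∀ G : Finset V → ℝ,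
    TS n (fun φ => G (vs φ)) μ = ev μ G n ts

theorem lev_zero : Lev 0 [(0, 1)] := fun _ _ _ _ G => lvl_zero G

/-- One level. -/
def levF (n : ℕ) (ts : List (ℕ × ℤ)) (P : ℕ) (N : List (ℕ × ℤ)) : Bool :=
  andF (oksF n ts) (eqtF (msrF 40 (blkF (sitF n ts) P)) N)

theorem lev_succ {n : ℕ} {ts N : List (ℕ × ℤ)} {P : ℕ} (h : Lev n ts)
    (hl : levF n ts P N = true) : Lev (n + 1) N := fun V _ μ hμ G => by
  unfold levF at hl
  rw [andF_eq, Bool.and_eq_true, oksF_eq] at hl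
  rw [← eqtF_sound _ _ hl.2, msrF_eq, blkF_eq, sitF_eq, ts_succ, h V μ hμ (GG μ G), ev_msr,
    ev_blk hμ G (n + 1) _ _ (sit_gd n ts hl.1), sit_iv hμ G n ts hl.1]

/-! ### The functional -/

/-- The terms of the functional, times `-1`. -/
def fnF (l P : ℕ) (N : List (ℕ × ℤ)) : Bool :=
  andF (andF (Nat.ble 1 l) (Nat.ble l 11)) (eqtF (msrF 40 (blkF (fit l (-1)) P)) N)

/-- The value of `N` is minus the functional. -/
def Fnl (l : ℕ) (N : List (ℕ × ℤ)) : Prop :=
  ∀ (V : Type) [Fintype V] (μ : V → V → ℝ), Wt μ → ev μ o1 (l + 1) N = -TS (l + 1) (fF l) μ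

theorem fnF_sound {l P : ℕ} {N : List (ℕ × ℤ)} (h : fnF l P N = true) : Fnl l N :=
    fun V _ μ hμ => by
  unfold fnF at h
  simp only [andF_eq, Bool.and_eq_true] at h
  obtain ⟨⟨h1, h2⟩, h3⟩ := h
  have h1' : 1 ≤ l := Nat.le_of_ble_eq_true h1
  have h2' : l ≤ 11 := Nat.le_of_ble_eq_true h2
  rw [← eqtF_sound _ _ h3, msrF_eq, blkF_eq, ev_msr,
    ev_blk hμ o1 (l + 1) _ _ (fit_gd h1' h2' _), fit_iv hμ h1' h2', SP.fo_ts hμ h1']
  push_cast
  ring

/-! ### The final check -/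

/-- `A` times the total minus the part with at least `l + 1` vertices. -/
def cmF (A l : ℕ) (ts : List (ℕ × ℤ)) : List (ℕ × ℤ) :=
  List.rec [] (fun t _ ih => (t.1, mlF (Bool.rec (Int.ofNat A) (dfF (Int.ofNat A) (Int.ofNat 1))
    (Nat.ble (Nat.succ l) (Nat.mod t.1 64))) t.2) :: ih) ts

theorem cmF_eq (A l : ℕ) : ∀ ts : List (ℕ × ℤ), cmF A l ts = cmb A l ts
  | [] => rfl
  | t :: ts => by
    show (t.1, mlF (Bool.rec (Int.ofNat A) (dfF (Int.ofNat A) (Int.ofNat 1))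
      (Nat.ble (l + 1) (t.1 % 64))) t.2) :: cmF A l ts = _
    rw [cmF_eq A l ts, mlF_eq, dfF_eq, cmb]
    cases h : Nat.ble (l + 1) (t.1 % 64) with
    | true =>
      rw [if_pos (Nat.le_of_ble_eq_true h)]
      rfl
    | false =>
      rw [if_neg (Nat.not_le_of_not_ble_eq_true (by simp [h])), sub_zero]
      rfl

/-- `B` times a list of terms. -/
def smF (B : ℤ) (ts : List (ℕ × ℤ)) : List (ℕ × ℤ) :=
  List.rec [] (fun t _ ih => (t.1, mlF B t.2) :: ih) ts

theorem ev_smF {V : Type} [Fintype V] (μ : V → V → ℝ) (G : Finset V → ℝ) (n : ℕ) (B : ℤ) :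
    ∀ ts : List (ℕ × ℤ), ev μ G n (smF B ts) = B * ev μ G n ts
  | [] => by simp [smF, ev]
  | t :: ts => by
    have h : smF B (t :: ts) = (t.1, mlF B t.2) :: smF B ts := rfl
    rw [h, ev, ev, ev_smF μ G n B ts, mlF_eq]
    push_cast
    ring

def ngnF (ts : List (ℕ × ℤ)) : Bool := List.rec true (fun t _ ih => andF (nnF t.2) ih) ts

theorem ngnF_eq : ∀ ts : List (ℕ × ℤ), ngnF ts = nng ts
  | [] => rfl
  | t :: ts => by
    show andF (nnF t.2) (ngnF ts) = _
    rw [ngnF_eq ts, andF_eq, nnF_eq, nng]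

/-- Merge of several lists. -/
def mraF (ls : List (List (ℕ × ℤ))) : List (ℕ × ℤ) :=
  List.rec [] (fun x _ ih => mrgF 100000 x ih) ls

theorem neg_mraF {n : ℕ} {ls : List (List (ℕ × ℤ))} (h : ∀ x ∈ ls, Neg n x) : Neg n (mraF ls) := by
  induction ls with
  | nil => exact neg_nil n
  | cons x xs ih =>
    show Neg n (mrgF 100000 x (mraF xs))
    rw [mrgF_eq]
    exact neg_mrg (h x (by simp)) (ih fun y hy => h y (by simp [hy]))

theorem smF_neg {n : ℕ} {ts : List (ℕ × ℤ)} (h : Neg n ts) (m : ℕ) : Neg n (smF m ts) :=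
    fun V _ μ hμ => by
  rw [ev_smF]
  have h1 : (0 : ℝ) ≤ ((m : ℤ) : ℝ) := by exact_mod_cast Nat.zero_le m
  exact mul_nonpos_of_nonneg_of_nonpos h1 (h V μ hμ)

/-- The final check. -/
def finF (l A B m : ℕ) (S F N : List (ℕ × ℤ)) : Bool :=
  andF (andF (andF (Nat.ble 1 l) (Nat.ble 1 B))
    (Nat.beq (Nat.mul A (Nat.pow (Nat.mul 2 l) (Nat.succ l)))
      (Nat.mul B (Nat.mul (Nat.mul 16 l) (Nat.succ l)))))
    (ngnF (mrgF 100000 (mrgF 100000 (cmF A l S) (smF (Int.ofNat B) F)) (smF (Int.ofNat m) N)))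

/-- Soundness of the checker. -/
theorem finF_sound {l A B m : ℕ} {S F N : List (ℕ × ℤ)} (hS : Lev (l + 1) S) (hF : Fnl l F)
    (hN : Neg (l + 1) N) (h : finF l A B m S F N = true) : Cert l := by
  unfold finF at h
  simp only [andF_eq, Bool.and_eq_true, mrgF_eq, cmF_eq, ngnF_eq] at h
  obtain ⟨⟨⟨h1, h2⟩, h3⟩, h4⟩ := h
  have h1' : 1 ≤ l := Nat.le_of_ble_eq_true h1
  have h2' : 1 ≤ B := Nat.le_of_ble_eq_true h2
  have h3' : A * (2 * l) ^ (l + 1) = B * (16 * l * (l + 1)) := Nat.eq_of_beq_eq_true h3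
  have h4r : (A : ℝ) * (2 * l) ^ (l + 1) = B * (16 * l * (l + 1)) := by exact_mod_cast h3'
  have hB : (0 : ℝ) < B := by exact_mod_cast h2'
  have hl : (0 : ℝ) < l := by exact_mod_cast h1'
  refine ⟨1 / B, by positivity, fun V _ μ hμ => ?_⟩
  have e1 := nng_ev hμ (l + 1) _ h4
  have e2 := smF_neg hN m V μ hμ
  have e5 : ev μ o1 (l + 1) S = (2 * ms μ ∅) ^ (l + 1) := by
    rw [← hS V μ hμ o1, ← SP.ts_one]
    rfl
  have e6 : ev μ (fun A => if l + 1 ≤ A.card then 1 else 0) (l + 1) S = BAD l μ := by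
    rw [← hS V μ hμ]
    rfl
  rw [ev_mrg, ev_mrg, ev_cmb, e5, e6, ev_smF, hF V μ hμ] at e1
  rw [show (Int.ofNat m) = (m : ℤ) from rfl] at e1
  have e7 : (((Int.ofNat B : ℤ)) : ℝ) = (B : ℝ) := by
    rw [show (Int.ofNat B) = (B : ℤ) from rfl]
    push_cast
    rfl
  rw [e7] at e1
  have e3 : (A : ℝ) * (2 * ms μ ∅) ^ (l + 1)
      = B * (16 * l * (l + 1) * (ms μ ∅ / l) ^ (l + 1)) := by
    have : (2 * ms μ ∅) = (2 * l) * (ms μ ∅ / l) := by field_simp
    rw [this, mul_pow, ← mul_assoc, h4r]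
    ring
  rw [e3] at e1
  have e4 : B * (TS (l + 1) (fF l) μ + 1 / B * BAD l μ)
      ≤ B * (16 * l * (l + 1) * (ms μ ∅ / l) ^ (l + 1)) := by
    have : (B : ℝ) * (TS (l + 1) (fF l) μ + 1 / B * BAD l μ)
        = B * TS (l + 1) (fF l) μ + BAD l μ := by field_simp
    rw [this]
    linarith
  exact le_of_mul_le_mul_left e4 hB

end

end Pool.Agent.Lib.MP_009d13_co.FL
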