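import Pool.Agent.Lib.MP_009d13_co.FL.Fsb

/-!
# Levels in several parts
-/

set_option autoImplicit false

namespace Pool.Agent.Lib.MP_009d13_co.FL

open Finset Classical
open Pool.Agent.Lib.MP_009d13_co.OD (NL mem_NL Wt un ms dg Fo)
open Pool.Agent.Lib.MP_009d13_co.SP (TS pt vs e1 fF BAD Cert)

noncomputable section

/-- The terms `N` are the extensions of the terms `ts`. -/
def Par (n : ℕ) (ts N : List (ℕ × ℤ)) : Prop :=
  ∀ (V : Type) [Fintype V] (μ : V → V → ℝ), Wt μ → ∀ G : Finset V → ℝ,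
    ev μ (GG μ G) n ts = ev μ G (n + 1) N

theorem par_of {n : ℕ} {ts N : List (ℕ × ℤ)} {P : ℕ} (hl : levF n ts P N = true) :
    Par n ts N := fun V _ μ hμ G => by
  unfold levF at hl
  rw [andF_eq, Bool.and_eq_true, oksF_eq] at hl
  rw [← eqtF_sound _ _ hl.2, msrF_eq, blkF_eq, sitF_eq, ev_msr,
    ev_blk hμ G (n + 1) _ _ (sit_gd n ts hl.1), sit_iv hμ G n ts hl.1]

theorem par_app {n : ℕ} {xs ys M N : List (ℕ × ℤ)} (hx : Par n xs M) (hy : Par n ys N) :
    Par n (appF xs ys) (mrgF 100000 M N) := fun V _ μ hμ G => by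
  rw [appF_eq, mrgF_eq, ev_append, ev_mrg, hx V μ hμ G, hy V μ hμ G]

theorem lev_par {n : ℕ} {ts N : List (ℕ × ℤ)} (h : Lev n ts) (hp : Par n ts N) :
    Lev (n + 1) N := fun V _ μ hμ G => by
  rw [ts_succ, h V μ hμ (GG μ G), hp V μ hμ G]

end

end Pool.Agent.Lib.MP_009d13_co.FL
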