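import Pool.Agent.Lib.MP_009d13_co.FL.Lst
import Pool.Agent.Lib.MP_009d13_co.SP.Defs

/-!
# Powers of the total mass, split by the set of hubs
-/

set_option autoImplicit false

namespace Pool.Agent.Lib.MP_009d13_co.FL

open Finset Classical
open Pool.Agent.Lib.MP_009d13_co.OD (NL mem_NL Wt un ms dg opa_sum opa_notMem)
open Pool.Agent.Lib.MP_009d13_co.SP (TS pt vs)

noncomputable section

set_option linter.unusedSectionVars false

variable {V : Type} [Fintype V]

/-- The weight after one more pair. -/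
def GG (μ : V → V → ℝ) (G : Finset V → ℝ) (A : Finset V) : ℝ :=
  ∑ x, ∑ y, μ x y * G (insert x (insert y A))

theorem ts_succ (μ : V → V → ℝ) (G : Finset V → ℝ) (n : ℕ) :
    TS (n + 1) (fun φ => G (vs φ)) μ = TS n (fun φ => GG μ G (vs φ)) μ := by
  unfold TS
  have h1 : ∑ φ : Fin (n + 1) → V × V, G (vs φ) * pt μ φ
      = ∑ p : V × V, ∑ φ : Fin n → V × V,
          G (vs (Fin.cons (α := fun _ => V × V) p φ)) *
            pt μ (Fin.cons (α := fun _ => V × V) p φ) := by
    rw [← Fintype.sum_prod_type' (f := fun (p : V × V) (φ : Fin n → V × V) =>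
      G (vs (Fin.cons (α := fun _ => V × V) p φ)) * pt μ (Fin.cons (α := fun _ => V × V) p φ))]
    exact (Fintype.sum_equiv (Fin.consEquiv (fun _ : Fin (n + 1) => V × V)) _ _
      (fun φ => rfl)).symm
  have h2 : ∀ (p : V × V) (φ : Fin n → V × V),
      vs (Fin.cons (α := fun _ => V × V) p φ) = insert p.1 (insert p.2 (vs φ)) := by
    intro p φ
    ext z
    simp only [vs, Finset.mem_union, Finset.mem_image, Finset.mem_univ, true_and,
      Finset.mem_insert, Fin.exists_fin_succ, Fin.cons_zero, Fin.cons_succ]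
    constructor
    · rintro ((h | h) | (h | h))
      · exact Or.inl h.symm
      · exact Or.inr (Or.inr (Or.inl h))
      · exact Or.inr (Or.inl h.symm)
      · exact Or.inr (Or.inr (Or.inr h))
    · rintro (h | h | h | h)
      · exact Or.inl (Or.inl h.symm)
      · exact Or.inr (Or.inl h.symm)
      · exact Or.inl (Or.inr h)
      · exact Or.inr (Or.inr h)
  have h3 : ∀ (p : V × V) (φ : Fin n → V × V),
      pt μ (Fin.cons (α := fun _ => V × V) p φ) = μ p.1 p.2 * pt μ φ := by
    intro p φ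
    unfold pt
    rw [Fin.prod_univ_succ]
    simp only [Fin.cons_zero, Fin.cons_succ]
  rw [h1, Finset.sum_comm]
  refine Finset.sum_congr rfl fun φ _ => ?_
  unfold GG
  rw [Finset.sum_mul, Fintype.sum_prod_type]
  refine Finset.sum_congr rfl fun x _ => ?_
  rw [Finset.sum_mul]
  refine Finset.sum_congr rfl fun y _ => ?_
  rw [h2, h3]
  ring

/-- The value of `f` at the entry `j`. -/
def ft (f : V → ℝ) (L : List V) (j : ℕ) : ℝ :=
  match L[j]? with
  | some x => f x
  | none => 0

theorem sum_rg {L : List V} (hL : L.Nodup) (f : V → ℝ) : ∀ (k v0 : ℕ), v0 + k ≤ L.length →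
    ∑ x ∈ ((L.take v0).toFinset)ᶜ, f x
      = lsum (ft f L) (rg v0 k) + ∑ x ∈ ((L.take (v0 + k)).toFinset)ᶜ, f x
  | 0, v0, _ => by simp [rg, lsum]
  | k + 1, v0, h => by
    have hj : v0 < L.length := by omega
    have hy : L[v0]? = some L[v0] := List.getElem?_eq_getElem hj
    have ih := sum_rg hL f k (v0 + 1) (by omega)
    have h1 := opa_sum (notMem_take hL hy) f
    rw [← take_succ_toFinset hy] at h1
    have h2 : ft f L v0 = f L[v0] := by
      unfold ft
      rw [hy]
    rw [rg, lsum, h2, add_assoc, show v0 + (k + 1) = v0 + 1 + k by omega, ← ih, h1]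

theorem sum_all {L : List V} (hL : L.Nodup) {v : ℕ} (hv : L.length = v) (f : V → ℝ) :
    ∑ x, f x = lsum (ft f L) (rg 0 v) + ∑ x ∈ L.toFinsetᶜ, f x := by
  have h := sum_rg hL f v 0 (by omega)
  rw [zero_add, List.take_of_length_le (le_of_eq hv), List.take_zero, List.toFinset_nil,
    Finset.compl_empty] at h
  exact h

theorem rg_prs (w : ℕ → ℕ → ℝ) (hs : ∀ i j, w i j = w j i) (hd : ∀ i, w i i = 0) :
    ∀ (k s : ℕ), lsum (fun i => lsum (fun j => w i j) (rg s k)) (rg s k)
      = lsum (fun p : ℕ × ℕ => 2 * w p.1 p.2) (prs s k)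
  | 0, s => by simp [rg, prs, lsum]
  | k + 1, s => by
    have ih := rg_prs w hs hd k (s + 1)
    rw [prs, lsum_append, lsum_map, ← ih, rg, lsum, lsum, hd, zero_add]
    have h1 : ∀ xs : List ℕ, lsum (fun i => lsum (fun j => w i j) (s :: rg (s + 1) k)) xs
        = lsum (fun i => w s i) xs + lsum (fun i => lsum (fun j => w i j) (rg (s + 1) k)) xs := by
      intro xs
      induction xs with
      | nil => simp [lsum]
      | cons x xs ih' =>
        rw [lsum, lsum, lsum, ih', lsum, hs x s]
        ring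
    rw [h1, lsum_mul]
    ring

theorem new_outG {μ : V → V → ℝ} (G : Finset V → ℝ) (v : ℕ) (g : List V → ℝ) {a : ℕ}
    (ha : a < v) :
    ∑ L ∈ NL (∅ : Finset V) v,
        g L * ft (fun x => ∑ y ∈ L.toFinsetᶜ, μ x y * G (insert y L.toFinset)) L a
      = ∑ L ∈ NL (∅ : Finset V) (v + 1), g (L.take v) * (G L.toFinset * wt μ L a v) := by
  rw [sum_snoc]
  refine Finset.sum_congr rfl fun P hP => ?_
  have hl : P.length = v := (mem_NL.1 hP).1
  have h1 : ∀ b : V, (P ++ [b]).take v = P := fun b => by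
    rw [← hl, List.take_left]
  have h2 : ∀ b : V, (P ++ [b])[v]? = some b := fun b => by
    rw [← hl]; simp
  have h3 : ∀ b : V, (P ++ [b])[a]? = P[a]? := fun b => by
    rw [List.getElem?_append_left (by omega)]
  have h4 : P[a]? = some P[a] := List.getElem?_eq_getElem (by omega)
  have h5 : ∀ b : V, wt μ (P ++ [b]) a v = μ P[a] b := fun b => by
    unfold wt
    rw [h2, h3, h4]
  have h6 : ∀ b : V, (P ++ [b]).toFinset = insert b P.toFinset := fun b => by
    ext z; simp
  simp only [h1, h5, h6]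
  rw [← Finset.mul_sum]
  unfold ft
  rw [h4]
  congr 1
  exact Finset.sum_congr rfl fun y _ => mul_comm _ _

theorem new_ooG {μ : V → V → ℝ} (hμ : Wt μ) (G : Finset V → ℝ) (v : ℕ) (g : List V → ℝ) :
    ∑ L ∈ NL (∅ : Finset V) v, g L *
        (∑ x ∈ L.toFinsetᶜ, ∑ y ∈ L.toFinsetᶜ, μ x y * G (insert x (insert y L.toFinset)))
      = ∑ L ∈ NL (∅ : Finset V) (v + 2), g (L.take v) * (G L.toFinset * wt μ L v (v + 1)) := by
  have h0 := new_outG (μ := μ) G (v + 1) (fun L => g (L.take v)) (a := v) (by omega)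
  have h0' : ∑ L ∈ NL (∅ : Finset V) (v + 2), g (L.take v) * (G L.toFinset * wt μ L v (v + 1))
      = ∑ L ∈ NL (∅ : Finset V) (v + 1),
        g (L.take v) * ft (fun x => ∑ y ∈ L.toFinsetᶜ, μ x y * G (insert y L.toFinset)) L v := by
    rw [h0]
    refine Finset.sum_congr rfl fun L _ => ?_
    rw [List.take_take, min_eq_left (by omega : v ≤ v + 1)]
  rw [h0', sum_snoc]
  refine Finset.sum_congr rfl fun P hP => ?_
  have hl : P.length = v := (mem_NL.1 hP).1
  have h1 : ∀ b : V, (P ++ [b]).take v = P := fun b => by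
    rw [← hl, List.take_left]
  have h2 : ∀ b : V, (P ++ [b])[v]? = some b := fun b => by
    rw [← hl]; simp
  have h3 : ∀ b : V, (P ++ [b]).toFinset = insert b P.toFinset := fun b => by
    ext z; simp
  simp only [h1]
  rw [← Finset.mul_sum]
  congr 1
  refine Finset.sum_congr rfl fun b hb => ?_
  unfold ft
  rw [h2, h3]
  have hb' : b ∉ P.toFinset := by simpa using hb
  rw [opa_sum hb' (fun y => μ b y * G (insert b (insert y P.toFinset))), hμ.diag, zero_mul,
    zero_add]
  refine Finset.sum_congr rfl fun y _ => ?_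
  rw [Finset.insert_comm]

/-- One more pair, expanded. -/
theorem stepG {μ : V → V → ℝ} (hμ : Wt μ) (G : Finset V → ℝ) {v : ℕ} {H : List ℕ}
    (hH : okh v H = true) (hv : v + 2 ≤ 16) :
    E μ (GG μ G) v H = et μ G (exL v H 1 [(0, .oo)]) := by
  have hs := wt_symm hμ
  have h1 : ∀ L ∈ NL (∅ : Finset V) v, GG μ G L.toFinset * mo μ L H
      = lsum (fun p : ℕ × ℕ => (mo μ L H * G L.toFinset) * (2 * wt μ L p.1 p.2)) (prs 0 v)
        + lsum (fun j => 2 * (mo μ L H *
            ft (fun x => ∑ y ∈ L.toFinsetᶜ, μ x y * G (insert y L.toFinset)) L j)) (rg 0 v)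
        + mo μ L H * (∑ x ∈ L.toFinsetᶜ, ∑ y ∈ L.toFinsetᶜ,
            μ x y * G (insert x (insert y L.toFinset))) := by
    intro L hL
    obtain ⟨hl, hn, -⟩ := mem_NL.1 hL
    set A := L.toFinset with hA
    have e1 : ∀ j ∈ rg 0 v, ft (fun x => ∑ y, μ x y * G (insert x (insert y A))) L j
        = lsum (fun i => wt μ L j i) (rg 0 v) * G A
          + ft (fun x => ∑ y ∈ Aᶜ, μ x y * G (insert y A)) L j := by
      intro j hj
      rw [mem_rg] at hj
      have h4 : L[j]? = some L[j] := List.getElem?_eq_getElem (by omega)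
      unfold ft
      rw [h4]
      show ∑ y, μ L[j] y * G (insert L[j] (insert y A)) = _ + ∑ y ∈ Aᶜ, μ L[j] y * G (insert y A)
      have h5 : L[j] ∈ A := by
        rw [hA, List.mem_toFinset]
        exact List.getElem_mem _
      have h6 : ∀ y, insert L[j] (insert y A) = insert y A := fun y =>
        Finset.insert_eq_of_mem (Finset.mem_insert_of_mem h5)
      simp only [h6]
      rw [sum_all hn hl (fun y => μ L[j] y * G (insert y A))]
      congr 1
      rw [mul_comm, ← lsum_mul]
      refine lsum_congr fun i hi => ?_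
      rw [mem_rg] at hi
      have h7 : L[i]? = some L[i] := List.getElem?_eq_getElem (by omega)
      have h8 : L[i] ∈ A := by
        rw [hA, List.mem_toFinset]
        exact List.getElem_mem _
      unfold ft wt
      rw [h4, h7]
      show μ L[j] L[i] * G (insert L[i] A) = G A * μ L[j] L[i]
      rw [Finset.insert_eq_of_mem h8]
      ring
    have e2 : ∀ x ∈ Aᶜ, ∑ y, μ x y * G (insert x (insert y A))
        = lsum (fun i => ft (fun z => μ x z * G (insert x A)) L i) (rg 0 v)
          + ∑ y ∈ Aᶜ, μ x y * G (insert x (insert y A)) := by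
      intro x _
      rw [sum_all hn hl (fun y => μ x y * G (insert x (insert y A)))]
      congr 1
      refine lsum_congr fun i hi => ?_
      rw [mem_rg] at hi
      have h7 : L[i]? = some L[i] := List.getElem?_eq_getElem (by omega)
      have h8 : L[i] ∈ A := by
        rw [hA, List.mem_toFinset]
        exact List.getElem_mem _
      unfold ft
      rw [h7]
      show μ x L[i] * G (insert x (insert L[i] A)) = μ x L[i] * G (insert x A)
      rw [Finset.insert_eq_of_mem h8]
    have e3 : ∑ x ∈ Aᶜ, lsum (fun i => ft (fun z => μ x z * G (insert x A)) L i) (rg 0 v)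
        = lsum (ft (fun x => ∑ y ∈ Aᶜ, μ x y * G (insert y A)) L) (rg 0 v) := by
      rw [lsum_sum]
      refine lsum_congr fun i hi => ?_
      rw [mem_rg] at hi
      have h7 : L[i]? = some L[i] := List.getElem?_eq_getElem (by omega)
      unfold ft
      rw [h7]
      refine Finset.sum_congr rfl fun x _ => ?_
      show μ x L[i] * _ = _
      rw [hμ.symm x L[i]]
    have e4 : GG μ G A = G A * lsum (fun p : ℕ × ℕ => 2 * wt μ L p.1 p.2) (prs 0 v)
        + 2 * lsum (ft (fun x => ∑ y ∈ Aᶜ, μ x y * G (insert y A)) L) (rg 0 v)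
        + ∑ x ∈ Aᶜ, ∑ y ∈ Aᶜ, μ x y * G (insert x (insert y A)) := by
      unfold GG
      rw [sum_all hn hl (fun x => ∑ y, μ x y * G (insert x (insert y A))), ← hA, lsum_congr e1,
        Finset.sum_congr rfl e2, Finset.sum_add_distrib, e3]
      have e5 : ∀ xs : List ℕ, lsum (fun j => lsum (fun i => wt μ L j i) (rg 0 v) * G A
          + ft (fun x => ∑ y ∈ Aᶜ, μ x y * G (insert y A)) L j) xs
          = G A * lsum (fun j => lsum (fun i => wt μ L j i) (rg 0 v)) xs
            + lsum (ft (fun x => ∑ y ∈ Aᶜ, μ x y * G (insert y A)) L) xs := by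
        intro xs
        induction xs with
        | nil => simp [lsum]
        | cons x xs ih' =>
          rw [lsum, lsum, lsum, ih']
          ring
      rw [e5, rg_prs (fun i j => wt μ L i j) (fun i j => hs L i j) (fun i => wt_self hμ L i)]
      ring
    rw [e4, lsum_mul (mo μ L H * G A) (fun p : ℕ × ℕ => 2 * wt μ L p.1 p.2),
      lsum_mul 2 (fun j => mo μ L H *
        ft (fun x => ∑ y ∈ Aᶜ, μ x y * G (insert y A)) L j), lsum_mul (mo μ L H)]
    ring
  unfold E
  rw [Finset.sum_congr rfl h1, Finset.sum_add_distrib, Finset.sum_add_distrib,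
    new_ooG hμ G v (fun L => mo μ L H), lsum_sum, lsum_sum]
  have hE : ∀ (k e : ℕ), E μ G (v + k) (e :: H)
      = ∑ L ∈ NL (∅ : Finset V) (v + k),
          mo μ (L.take v) H * (G L.toFinset * wt μ L (e / 16) (e % 16)) := by
    intro k e
    unfold E
    refine Finset.sum_congr rfl fun L _ => ?_
    rw [mo, mo_take L hH]
    ring
  have h2 : et μ G (exL v H 1 [(0, .oo)])
      = lsum (fun t : ℕ × ℕ × ℕ => (t.1 : ℝ) * E μ G (v + t.2.1) (t.2.2 :: H)) (ex1 0 v .oo) := by
    rw [exL, et_flatMap]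
    refine lsum_congr fun t _ => ?_
    rw [exL, et, et, one_mul, add_zero]
  rw [h2, ex1, lsum_append, lsum_append, lsum_map, lsum_map, Nat.sub_zero]
  congr 1
  · congr 1
    · refine lsum_congr fun p hp => ?_
      have hp' := mem_prs hp
      show _ = ((2 : ℕ) : ℝ) * E μ G (v + 0) ((16 * p.1 + p.2) :: H)
      rw [hE, add_zero, Finset.mul_sum, show (16 * p.1 + p.2) / 16 = p.1 by omega,
        show (16 * p.1 + p.2) % 16 = p.2 by omega]
      refine Finset.sum_congr rfl fun L hL => ?_
      rw [List.take_of_length_le (le_of_eq (mem_NL.1 hL).1)]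
      push_cast
      ring
    · refine lsum_congr fun j hj => ?_
      rw [mem_rg] at hj
      show _ = ((2 : ℕ) : ℝ) * E μ G (v + 1) ((16 * j + v) :: H)
      rw [← Finset.mul_sum, new_outG G v (fun L => mo μ L H) (by omega : j < v), hE,
        show (16 * j + v) / 16 = j by omega, show (16 * j + v) % 16 = v by omega]
      push_cast
      rfl
  · rw [lsum, lsum, add_zero]
    show _ = ((1 : ℕ) : ℝ) * E μ G (v + 2) ((16 * v + (v + 1)) :: H)
    rw [hE, show (16 * v + (v + 1)) / 16 = v by omega,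
      show (16 * v + (v + 1)) % 16 = v + 1 by omega]
    push_cast
    ring

/-! ### The powers of the total mass -/

/-- The next level. -/
def sit (n : ℕ) : List (ℕ × ℤ) → List (ℤ × List (ℕ × ℕ × List ℕ))
  | [] => []
  | t :: ts => (t.2, exL (t.1 % 64) (dec n (t.1 / 64)) 1 [(0, .oo)]) :: sit n ts

/-- All terms of a level can be extended. -/
def oks (n : ℕ) : List (ℕ × ℤ) → Bool
  | [] => true
  | t :: ts => decide (t.1 % 64 + 2 ≤ 16) && okh (t.1 % 64) (dec n (t.1 / 64)) && oks n ts

theorem sit_iv {μ : V → V → ℝ} (hμ : Wt μ) (G : Finset V → ℝ) (n : ℕ) :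
    ∀ ts : List (ℕ × ℤ), oks n ts = true → iv μ G (sit n ts) = ev μ (GG μ G) n ts
  | [], _ => rfl
  | t :: ts, h => by
    rw [oks, Bool.and_eq_true, Bool.and_eq_true, decide_eq_true_iff] at h
    rw [sit, iv, ev, sit_iv hμ G n ts h.2, ← stepG hμ G h.1.2 h.1.1]
    rfl

theorem sit_gd (n : ℕ) : ∀ ts : List (ℕ × ℤ), oks n ts = true → gdi (n + 1) (sit n ts)
  | [], _ => by
    intro i hi
    simp [sit] at hi
  | t :: ts, h => by
    rw [oks, Bool.and_eq_true, Bool.and_eq_true, decide_eq_true_iff] at h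
    intro i hi
    rw [sit, List.mem_cons] at hi
    rcases hi with rfl | hi
    · have := exL_gd [(0, .oo)] (t.1 % 64) (dec n (t.1 / 64)) 1 h.1.2
        (by
          intro f hf
          rw [List.mem_singleton] at hf
          subst hf
          exact ⟨Nat.zero_le _, rfl⟩) (by simpa using h.1.1)
      rw [dec_length] at this
      exact this
    · exact sit_gd n ts h.2 i hi

/-- The levels, permutations `Ps`, starting from level `n`. -/
def lvl : ℕ → List ℕ → List (ℕ × ℤ) → List (ℕ × ℤ)
  | _, [], ts => ts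
  | n, P :: Ps, ts => lvl (n + 1) Ps (msr 40 (blk (sit n ts) P))

/-- All levels can be extended. -/
def okl : ℕ → List ℕ → List (ℕ × ℤ) → Bool
  | _, [], _ => true
  | n, P :: Ps, ts => oks n ts && okl (n + 1) Ps (msr 40 (blk (sit n ts) P))

theorem lvl_ts {μ : V → V → ℝ} (hμ : Wt μ) : ∀ (Ps : List ℕ) (n : ℕ) (ts : List (ℕ × ℤ)),
    okl n Ps ts = true →
    (∀ G : Finset V → ℝ, TS n (fun φ => G (vs φ)) μ = ev μ G n ts) →
    ∀ G : Finset V → ℝ, TS (n + Ps.length) (fun φ => G (vs φ)) μ
      = ev μ G (n + Ps.length) (lvl n Ps ts)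
  | [], _, _, _, h, G => h G
  | P :: Ps, n, ts, ho, h, G => by
    rw [okl, Bool.and_eq_true] at ho
    have h1 : ∀ G : Finset V → ℝ, TS (n + 1) (fun φ => G (vs φ)) μ
        = ev μ G (n + 1) (msr 40 (blk (sit n ts) P)) := by
      intro G
      rw [ts_succ, h (GG μ G), ev_msr, ev_blk hμ G (n + 1) _ _ (sit_gd n ts ho.1),
        sit_iv hμ G n ts ho.1]
    have h2 := lvl_ts hμ Ps (n + 1) _ ho.2 h1 G
    rw [List.length_cons, lvl, show n + (Ps.length + 1) = n + 1 + Ps.length by omega]
    exact h2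

theorem lvl_zero {μ : V → V → ℝ} (G : Finset V → ℝ) :
    TS 0 (fun φ => G (vs φ)) μ = ev μ G 0 [(0, 1)] := by
  have h1 : ev μ G 0 [(0, 1)] = G ∅ := by
    rw [ev, ev]
    unfold Ek E
    show ((1 : ℤ) : ℝ) * ∑ L ∈ NL (∅ : Finset V) 0, G L.toFinset * mo μ L (dec 0 0) + 0 = G ∅
    rw [OD.sum_NL_zero]
    simp [dec, mo]
  rw [h1]
  unfold TS
  rw [Fintype.sum_unique]
  have h2 : vs (default : Fin 0 → V × V) = ∅ := by
    ext z
    simp [vs]
  show G (vs (default : Fin 0 → V × V)) * pt μ default = G ∅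
  rw [h2]
  unfold pt
  simp

end

end Pool.Agent.Lib.MP_009d13_co.FL
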